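import Pool.Agent.Helper84.MXP.Core3
import Pool.Agent.Helper70.ML.All2

/-!
# Special linear groups over all finite fields
-/

set_option autoImplicit false
set_option linter.unusedSectionVars false

namespace Pool.Agent.Helper84.MXP

open Pool.Agent.Helper70.ML Pool.Agent.Helper75.MX

/-- the determinant is surjective -/
theorem det_surj (n : ℕ) (hn : 1 ≤ n) (F : Type) [Field F] :
    Function.Surjective (Matrix.GeneralLinearGroup.det : GL (Fin n) F →* Fˣ) := by
  intro u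
  let i0 : Fin n := ⟨0, hn⟩
  let A : Matrix (Fin n) (Fin n) F := Matrix.diagonal (Function.update (fun _ => (1 : F)) i0 (u : F))
  have hA : A.det = (u : F) := by
    simp only [A]
    rw [Matrix.det_diagonal, Finset.prod_update_of_mem (Finset.mem_univ _)]
    simp
  refine ⟨Matrix.GeneralLinearGroup.mkOfDetNeZero A (by rw [hA]; exact u.ne_zero), ?_⟩
  apply Units.ext
  rw [Matrix.GeneralLinearGroup.val_det_apply]
  exact hA

theorem card_SL (n : ℕ) (hn : 1 ≤ n) (F : Type) [Field F] [Finite F] :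
    Nat.card (SLn n F) * (Nat.card F - 1) = ∏ i : Fin n, (Nat.card F ^ n - Nat.card F ^ (i : ℕ)) := by
  classical
  have := Fintype.ofFinite F
  have h1 := Matrix.card_GL_field (𝔽 := F) n
  rw [← Nat.card_eq_fintype_card (α := F)] at h1
  rw [← h1]
  have h2 := (Matrix.GeneralLinearGroup.det : GL (Fin n) F →* Fˣ).ker.card_mul_index
  rw [Subgroup.index_ker, MonoidHom.range_eq_top.2 (det_surj n hn F), Subgroup.card_top,
    Nat.card_units] at h2
  rw [← h2]
  congr 1
  -- the special linear group is the kernel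
  have h3 : (Matrix.SpecialLinearGroup.toGL : SLn n F →* GL (Fin n) F).range =
      (Matrix.GeneralLinearGroup.det : GL (Fin n) F →* Fˣ).ker := by
    ext g
    rw [MonoidHom.mem_range, MonoidHom.mem_ker]
    constructor
    · rintro ⟨x, rfl⟩
      exact Matrix.SpecialLinearGroup.coeToGL_det x
    · intro hg
      have : (g : Matrix (Fin n) (Fin n) F).det = 1 := by
        rw [← Matrix.GeneralLinearGroup.val_det_apply, hg]
        rfl
      exact ⟨⟨g.1, this⟩, Units.ext rfl⟩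
  rw [← h3]
  exact Nat.card_congr (MonoidHom.ofInjective Matrix.SpecialLinearGroup.toGL_injective).toEquiv

/-- the order of `SL₂(F)` -/
theorem card_SL2 (F : Type) [Field F] [Finite F] :
    Nat.card (SLn 2 F) = Nat.card F * ((Nat.card F - 1) * (Nat.card F + 1)) := by
  have h := card_SL 2 (by norm_num) F
  have hq : 1 < Nat.card F := Finite.one_lt_card
  rw [Fin.prod_univ_two] at h
  obtain ⟨r, hr⟩ : ∃ r, Nat.card F = r + 1 := ⟨Nat.card F - 1, by omega⟩
  rw [hr] at h ⊢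
  have hr0 : 0 < r := by omega
  apply Nat.eq_of_mul_eq_mul_right hr0
  simp only [Fin.val_zero, pow_zero, Fin.val_one, pow_one, Nat.add_sub_cancel] at h ⊢
  rw [h]
  have e1 : (r + 1) ^ 2 - 1 = r * (r + 2) := by
    have : (r + 1) ^ 2 = r * (r + 2) + 1 := by ring
    omega
  have e2 : (r + 1) ^ 2 - (r + 1) = r * (r + 1) := by
    have : (r + 1) ^ 2 = r * (r + 1) + (r + 1) := by ring
    omega
  rw [e1, e2]
  ring

theorem card_center2 (F : Type) [Field F] [Finite F] :
    Nat.card (Subgroup.center (SLn 2 F)) ≤ 2 := by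
  let e := Matrix.SpecialLinearGroup.center_equiv_rootsOfUnity' (R := F) (0 : Fin 2)
  have hc0 : Nat.card (Subgroup.center (SLn 2 F)) =
      Nat.card (rootsOfUnity (Fintype.card (Fin 2)) F) := Nat.card_congr e.toEquiv
  rw [hc0, Fintype.card_fin]
  exact card_rootsOfUnity F 2

/-- a final step: logarithms -/
theorem fin_log {G : Type} [Group G] [Finite G] {k : ℕ} (hmix : Mix G k)
    (h : 2 ^ k ≤ Nat.card G ^ 6) :
    Mixable G ∧ (mixlen G : ℝ) ≤ 6 * Real.logb 2 (Nat.card G) := by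
  obtain ⟨m, hm, hmm⟩ := exists_isMixing hmix
  refine ⟨⟨m, hmm⟩, ?_⟩
  have hle : mixlen G ≤ k := (Nat.sInf_le hmm).trans hm
  have hQ0 : 0 < Nat.card G := Nat.card_pos
  have h3 : ((2 : ℝ) ^ k) ≤ (Nat.card G : ℝ) ^ 6 := by exact_mod_cast h
  have h4 : Real.logb 2 ((2 : ℝ) ^ k) ≤ Real.logb 2 ((Nat.card G : ℝ) ^ 6) :=
    Real.logb_le_logb_of_le (by norm_num) (by positivity) h3
  rw [Real.logb_pow, Real.logb_pow, Real.logb_self_eq_one (by norm_num), mul_one] at h4
  have h5 : (mixlen G : ℝ) ≤ k := by exact_mod_cast hle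
  have h6 : (k : ℝ) ≤ 6 * Real.logb 2 (Nat.card G) := by
    push_cast at h4 ⊢
    exact h4
  exact h5.trans h6

/-- the count for `SL₂(F)` -/
theorem wt_bound {F : Type} [Field F] [Finite F] (h : ¬ IsSquare (-1 : F)) (hF : 3 < Nat.card F) :
    wt (2 * (Nat.card F + 1)) * (wt (2 * (Nat.card F - 1)) * wt (2 * (Nat.card F - 1))) * 4 ≤
      (Nat.card F * ((Nat.card F - 1) * (Nat.card F + 1)) / 2) ^ 6 := by
  classical
  have := Fintype.ofFinite F
  have h4 : Nat.card F % 4 = 3 := by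
    by_contra h4
    apply h
    rw [FiniteField.isSquare_neg_one_iff, ← Nat.card_eq_fintype_card]
    exact h4
  set q := Nat.card F with hq
  obtain ⟨n, hn⟩ : ∃ n, q = 4 * n + 3 := ⟨q / 4, by omega⟩
  have hn1 : 1 ≤ n := by omega
  -- q + 1 = 4 (n + 1), q - 1 = 2 (2 n + 1)
  have e1 : 2 * (q - 1) = 2 ^ 2 * (2 * n + 1) := by omega
  have w1 : wt (2 * (q - 1)) = 4 * (2 * n + 1) ^ 6 := by
    rw [e1, wt_two_pow 2 ⟨n, rfl⟩]
    norm_num
  have e2 : 2 * (q + 1) = 2 ^ 3 * (n + 1) := by omega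
  have w2 : wt (2 * (q + 1)) ≤ 8 * (n + 1) ^ 6 := by
    rw [e2, wt_mul]
    have a1 : wt (2 ^ 3) = 8 := by
      have := wt_two_pow 3 odd_one
      simpa using this
    rw [a1]
    apply Nat.mul_le_mul_left
    unfold wt
    calc (n + 1) * (ordCompl[2] (n + 1)) ^ 5 ≤ (n + 1) * (n + 1) ^ 5 :=
          Nat.mul_le_mul_left _ (Nat.pow_le_pow_left (Nat.ordCompl_le _ _) 5)
      _ = (n + 1) ^ 6 := by ring
  have e3 : q * ((q - 1) * (q + 1)) / 2 = q * ((2 * n + 1) * (4 * (n + 1))) := by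
    have : q * ((q - 1) * (q + 1)) = q * ((2 * n + 1) * (4 * (n + 1))) * 2 := by
      have a1 : q - 1 = 2 * (2 * n + 1) := by omega
      have a2 : q + 1 = 4 * (n + 1) := by omega
      rw [a1, a2]
      ring
    rw [this, Nat.mul_div_cancel _ (by norm_num)]
  rw [e3, w1]
  calc wt (2 * (q + 1)) * (4 * (2 * n + 1) ^ 6 * (4 * (2 * n + 1) ^ 6)) * 4
      ≤ 8 * (n + 1) ^ 6 * (4 * (2 * n + 1) ^ 6 * (4 * (2 * n + 1) ^ 6)) * 4 :=
        Nat.mul_le_mul_right _ (Nat.mul_le_mul_right _ w2)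
    _ = 512 * ((2 * n + 1) * ((2 * n + 1) * (n + 1))) ^ 6 := by ring
    _ ≤ 4096 * (q * ((2 * n + 1) * (n + 1))) ^ 6 := by
        apply Nat.mul_le_mul (by norm_num)
        apply Nat.pow_le_pow_left
        apply Nat.mul_le_mul_right
        omega
    _ = (q * ((2 * n + 1) * (4 * (n + 1)))) ^ 6 := by ring

/-- a form with an explicit bound, for `SL₂(F)` modulo central subgroups -/
theorem mixSL2_quot {F : Type} [Field F] [Finite F] (h : ¬ IsSquare (-1 : F)) (hF : 3 < Nat.card F)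
    (N : Subgroup (SLn 2 F)) [N.Normal] (hN : N ≤ Subgroup.center (SLn 2 F)) :
    ∃ k, Mix (SLn 2 F ⧸ N) k ∧ 2 ^ k ≤ Nat.card (SLn 2 F ⧸ N) ^ 6 := by
  obtain ⟨kd, ka, hmix, hkd, hka⟩ := mixSL2 h hF
  refine ⟨_, qQUO _ N _ hmix, ?_⟩
  have hb := wt_bound h hF
  rw [← card_SL2] at hb
  have hcard : Nat.card (SLn 2 F) = Nat.card (SLn 2 F ⧸ N) * Nat.card N := card_quot N
  have hNc : Nat.card N ≤ 2 :=
    (Nat.card_mono (Set.toFinite _) hN).trans (card_center2 F)
  have h1 : Nat.card (SLn 2 F) / 2 ≤ Nat.card (SLn 2 F ⧸ N) := by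
    apply Nat.div_le_of_le_mul
    rw [hcard, mul_comm]
    exact Nat.mul_le_mul_right _ hNc
  calc 2 ^ (kd + ka + (1 + 1) + ka) = 2 ^ kd * (2 ^ ka * 2 ^ ka) * 4 := by ring
    _ ≤ wt (2 * (Nat.card F + 1)) * (wt (2 * (Nat.card F - 1)) * wt (2 * (Nat.card F - 1))) * 4 :=
        Nat.mul_le_mul_right _ (Nat.mul_le_mul hkd (Nat.mul_le_mul hka hka))
    _ ≤ (Nat.card (SLn 2 F) / 2) ^ 6 := hb
    _ ≤ _ := Nat.pow_le_pow_left h1 6

/-- **Special linear groups**: all `n ≥ 2` and all finite fields, except `n = 2`, `|F| = 3`. -/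
theorem slAll (n : ℕ) (F : Type) [Field F] [Finite F] (hn : 2 ≤ n)
    (h3 : ¬ (n = 2 ∧ Nat.card F = 3)) (N : Subgroup (SLn n F)) [N.Normal]
    (hN : N ≤ Subgroup.center (SLn n F)) :
    Mixable (SLn n F ⧸ N) ∧
      (mixlen (SLn n F ⧸ N) : ℝ) ≤ 6 * Real.logb 2 (Nat.card (SLn n F ⧸ N)) := by
  by_cases hF : 3 ≤ n ∨ IsSquare (-1 : F)
  · exact qSLN n F hn hF N hN
  · push Not at hF
    obtain ⟨hn3, hsq⟩ := hF
    obtain rfl : n = 2 := by omega
    have hcard : 3 < Nat.card F := by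
      classical
      have := Fintype.ofFinite F
      have h4 : Nat.card F % 4 = 3 := by
        by_contra h4
        apply hsq
        rw [FiniteField.isSquare_neg_one_iff, ← Nat.card_eq_fintype_card]
        exact h4
      have : Nat.card F ≠ 3 := fun h => h3 ⟨rfl, h⟩
      omega
    obtain ⟨k, h1, h2⟩ := mixSL2_quot hsq hcard N hN
    exact fin_log h1 h2

end Pool.Agent.Helper84.MXP
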