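import Pool.Agent.Helper84.MXP.Good2
import Pool.Agent.Helper70.ML.GenFin

/-!
# `StPSL2` for all finite fields
-/

set_option autoImplicit false
set_option linter.unusedSectionVars false

namespace Pool.Agent.Helper84.MXP

open Pool.Agent.Helper70.ML Pool.Agent.Helper75.MX Pool.Agent.Helper75.ML
open scoped commutatorElement Nat

theorem simple_index {S : Type} [Group S] [Finite S] (hS : IsSimpleGroup S) {H : Subgroup S}
    (hH : H ≠ ⊤) : Nat.card S ≤ (H.index)! := by
  classical
  have h1 : (MulAction.toPermHom S (S ⧸ H)).ker = ⊥ := by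
    rw [← Subgroup.normalCore_eq_ker]
    rcases (H.normalCore_normal).eq_bot_or_eq_top with h | h
    · exact h
    · exfalso
      apply hH
      rw [eq_top_iff, ← h]
      exact H.normalCore_le
  have h2 : Function.Injective (MulAction.toPermHom S (S ⧸ H)) :=
    (MonoidHom.ker_eq_bot_iff _).1 h1
  have := Fintype.ofFinite (S ⧸ H)
  have h3 := Nat.card_le_card_of_injective _ h2
  rw [Nat.card_eq_fintype_card (α := Equiv.Perm (S ⧸ H)), Fintype.card_perm,
    ← Nat.card_eq_fintype_card] at h3
  exact h3

theorem simple_not {S : Type} [Group S] [Finite S] (hS : IsSimpleGroup S) {p k m : ℕ}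
    (hp : p.Prime) (hc : Nat.card S = p ^ k * m) (hm : 1 < m) (hlt : m ! < p ^ k * m) : False := by
  have : Fact p.Prime := ⟨hp⟩
  obtain ⟨K, hK⟩ := Sylow.exists_subgroup_card_pow_prime p (n := k) (G := S)
    (by rw [hc]; exact Dvd.intro _ rfl)
  have h1 := K.card_mul_index
  rw [hK, hc] at h1
  have h2 : K.index = m := Nat.eq_of_mul_eq_mul_left (pow_pos hp.pos _) h1
  have h3 : K ≠ ⊤ := by
    rintro rfl
    rw [Subgroup.index_top] at h2
    omega
  have h4 := simple_index hS h3
  rw [h2, hc] at h4
  omega

/-- **Part 2**, all finite fields. -/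
theorem hPSL2 : StPSL2 := by
  intro F _ _ Q _ _ hQ he
  by_cases hF : 3 < Nat.card F
  · exact Or.inr (good_psl2 hF Q hQ he)
  exfalso
  obtain ⟨hp, hsim, -⟩ := hQ
  obtain ⟨e⟩ := he
  have hq : 1 < Nat.card F := Finite.one_lt_card
  have h1 : Nat.card (SLn 2 F) = Nat.card (PS F) * Nat.card (Subgroup.center (SLn 2 F)) :=
    card_quot _
  have h2 := card_center2 F
  have h3 : 0 < Nat.card (Subgroup.center (SLn 2 F)) := Nat.card_pos
  rw [card_SL2] at h1
  have hS : IsSimpleGroup (PS F) := (MulEquiv.isSimpleGroup_congr e).1 hsim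
  have hfin : Finite (PS F) := inferInstance
  have h4 : Nat.card F = 2 ∨ Nat.card F = 3 := by omega
  have h5 : Nat.card (Subgroup.center (SLn 2 F)) = 1 ∨ Nat.card (Subgroup.center (SLn 2 F)) = 2 := by
    omega
  have hn3 : Nat.card (PS F) ≠ 3 := by
    intro hc
    have hf : Fact (Nat.Prime 3) := ⟨Nat.prime_three⟩
    have hcyc : IsCyclic (PS F) := isCyclic_of_prime_card hc
    have hcyc' : IsCyclic (Q ⧸ Subgroup.center Q) := isCyclic_of_surjective e.symm e.symm.surjective
    have h6 := MonoidHom.isMulCommutative_of_isCyclic_of_ker_le_center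
      (QuotientGroup.mk' (Subgroup.center Q)) (by rw [QuotientGroup.ker_mk'])
    have h7 : Subgroup.center Q = ⊤ := by
      rw [eq_top_iff]
      intro x _
      rw [Subgroup.mem_center_iff]
      intro y
      exact h6.1.comm y x
    have h8 : Subsingleton (Q ⧸ Subgroup.center Q) := by
      rw [h7]
      exact QuotientGroup.subsingleton_quotient_top
    exact not_subsingleton _ h8
  rcases h4 with h4 | h4 <;> rcases h5 with h5 | h5 <;> rw [h4, h5] at h1
  · exact simple_not hS (p := 3) (k := 1) (m := 2) Nat.prime_three (by omega) (by norm_num)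
      (by decide)
  · exact hn3 (by omega)
  · exact simple_not hS (p := 2) (k := 3) (m := 3) Nat.prime_two (by omega) (by norm_num)
      (by decide)
  · exact simple_not hS (p := 2) (k := 2) (m := 3) Nat.prime_two (by omega) (by norm_num)
      (by decide)

end Pool.Agent.Helper84.MXP
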