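import Mathlib

/-!
# The number of points of the circle over a finite field in which `-1` is not a square
-/

set_option autoImplicit false

namespace Pool.Agent.Helper84.MXP

variable {F : Type} [Field F]

theorem two_ne (h : ¬ IsSquare (-1 : F)) : (2 : F) ≠ 0 := by
  intro h2
  apply h
  refine ⟨1, ?_⟩
  have : (1 : F) + 1 = 0 := by rw [← h2]; norm_num
  rw [one_mul]
  exact (eq_neg_of_add_eq_zero_left this).symm

theorem sumsq_ne (h : ¬ IsSquare (-1 : F)) {x y : F} (hxy : x ^ 2 + y ^ 2 = 0) : x = 0 ∧ y = 0 := by
  by_cases hy : y = 0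
  · subst hy
    have : x ^ 2 = 0 := by simpa using hxy
    exact ⟨by simpa using this, rfl⟩
  · exfalso
    apply h
    refine ⟨x / y, ?_⟩
    field_simp
    linear_combination -hxy

theorem one_add_sq_ne (h : ¬ IsSquare (-1 : F)) (t : F) : 1 + t ^ 2 ≠ 0 := by
  intro h0
  have := sumsq_ne h (x := 1) (y := t) (by simpa using h0)
  exact one_ne_zero this.1

theorem card_circle [Finite F] (h : ¬ IsSquare (-1 : F)) :
    Nat.card {p : F × F // p.1 ^ 2 + p.2 ^ 2 = 1} = Nat.card F + 1 := by
  classical
  have h2 := two_ne h
  let f : Option F → {p : F × F // p.1 ^ 2 + p.2 ^ 2 = 1} := fun o =>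
    match o with
    | none => ⟨(-1, 0), by norm_num⟩
    | some t => ⟨((1 - t ^ 2) / (1 + t ^ 2), 2 * t / (1 + t ^ 2)), by
        have := one_add_sq_ne h t
        field_simp
        ring⟩
  have hf : Function.Bijective f := by
    constructor
    · have key : ∀ t : F, (1 - t ^ 2) / (1 + t ^ 2) ≠ -1 := by
        intro t ht
        have h1 := one_add_sq_ne h t
        rw [div_eq_iff h1] at ht
        apply h2
        linear_combination ht
      have key2 : ∀ t : F, 2 * t / (1 + t ^ 2) / (1 + (1 - t ^ 2) / (1 + t ^ 2)) = t := by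
        intro t
        have h1 := one_add_sq_ne h t
        have h3 : 1 + (1 - t ^ 2) / (1 + t ^ 2) = 2 / (1 + t ^ 2) := by
          field_simp; ring
        rw [h3]
        field_simp
      rintro (_ | t) (_ | s) hts
      · rfl
      · exfalso
        have h1 : (-1 : F) = (1 - s ^ 2) / (1 + s ^ 2) := congrArg (fun z => z.1.1) hts
        exact key s h1.symm
      · exfalso
        have h1 : (1 - t ^ 2) / (1 + t ^ 2) = (-1 : F) := congrArg (fun z => z.1.1) hts
        exact key t h1
      · have h1 : (1 - t ^ 2) / (1 + t ^ 2) = (1 - s ^ 2) / (1 + s ^ 2) :=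
          congrArg (fun z => z.1.1) hts
        have h3 : 2 * t / (1 + t ^ 2) = 2 * s / (1 + s ^ 2) := congrArg (fun z => z.1.2) hts
        have h4 := key2 t
        rw [h1, h3, key2 s] at h4
        rw [h4]
    · rintro ⟨⟨x, y⟩, hxy⟩
      have hxy' : x ^ 2 + y ^ 2 = 1 := hxy
      by_cases hx : x = -1
      · refine ⟨none, ?_⟩
        apply Subtype.ext
        have hy : y = 0 := by
          subst hx
          have : y ^ 2 = 0 := by linear_combination hxy'
          simpa using this
        show ((-1 : F), (0 : F)) = (x, y)
        rw [hx, hy]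
      · have hx1 : 1 + x ≠ 0 := by
          intro h0; apply hx; linear_combination h0
        refine ⟨some (y / (1 + x)), ?_⟩
        apply Subtype.ext
        have h1 := one_add_sq_ne h (y / (1 + x))
        have e : 1 + (y / (1 + x)) ^ 2 = 2 / (1 + x) := by
          field_simp
          linear_combination hxy'
        show ((1 - (y / (1 + x)) ^ 2) / (1 + (y / (1 + x)) ^ 2),
          2 * (y / (1 + x)) / (1 + (y / (1 + x)) ^ 2)) = (x, y)
        have e2 : 1 - (y / (1 + x)) ^ 2 = 2 * x / (1 + x) := by
          field_simp
          linear_combination -hxy'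
        rw [e, e2]
        congr 1
        · field_simp
        · field_simp
  have := Nat.card_congr (Equiv.ofBijective f hf)
  rw [← this, Finite.card_option]

end Pool.Agent.Helper84.MXP
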