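import Pool.Agent.Helper84.MXP.Dih
import Pool.Agent.Helper84.MXP.Circle
import Pool.Agent.Helper38.ML.M_AVG
import Pool.Agent.Helper78.ML.M_SLN

/-!
# `SL₂(F)`, `-1` not a square: the uniform distribution as a product of two dihedral averages, two lazy
translations and a further dihedral average
-/

set_option autoImplicit false
set_option linter.unusedSectionVars false

namespace Pool.Agent.Helper84.MXP

open Pool.Agent.Helper70.ML Pool.Agent.Helper75.MX

/-! ## Averages -/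

section avg

variable {G : Type} [Group G]

/-- the average over a subgroup -/
noncomputable def avK (K : Subgroup G) (f : G → ℝ) : G → ℝ :=
  (1 / (Nat.card K : ℝ)) • ∑ᶠ x : K, L (x : G) f

theorem avK_apply [Finite G] (K : Subgroup G) [Fintype K] (f : G → ℝ) (g : G) :
    avK K f g = (1 / (Nat.card K : ℝ)) * ∑ x : K, f ((x : G)⁻¹ * g) := by
  unfold avK
  rw [finsum_eq_sum_of_fintype]
  simp only [Pi.smul_apply, Finset.sum_apply, smul_eq_mul]
  rfl

theorem reach_avK [Finite G] {K : Subgroup G} {k : ℕ} (h : Mix K k) (f : G → ℝ) :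
    Reach k f (avK K f) := Pool.Agent.Helper38.ML.hAVG G K k h f

theorem avK_left [Finite G] (K : Subgroup G) (f : G → ℝ) {k : G} (hk : k ∈ K) (g : G) :
    avK K f (k * g) = avK K f g := by
  classical
  have : Fintype K := Fintype.ofFinite K
  rw [avK_apply, avK_apply]
  congr 1
  rw [← Equiv.sum_comp (Equiv.mulLeft (⟨k, hk⟩ : K))]
  apply Finset.sum_congr rfl
  intro x _
  congr 1
  simp only [Equiv.coe_mulLeft, Subgroup.coe_mul]
  group

theorem avK_right [Finite G] (K : Subgroup G) {f : G → ℝ} {h : G} (hf : ∀ g, f (g * h) = f g)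
    (g : G) : avK K f (g * h) = avK K f g := by
  classical
  have : Fintype K := Fintype.ofFinite K
  rw [avK_apply, avK_apply]
  congr 1
  apply Finset.sum_congr rfl
  intro x _
  rw [← mul_assoc, hf]

open scoped Classical in
theorem avK_dlt [Finite G] (K : Subgroup G) (g : G) :
    avK K (dlt G) g = if g ∈ K then 1 / (Nat.card K : ℝ) else 0 := by
  have : Fintype K := Fintype.ofFinite K
  rw [avK_apply]
  split_ifs with h
  · rw [Finset.sum_eq_single (⟨g, h⟩ : K)]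
    · simp [dlt]
    · intro x _ hx
      have : ((x : G)⁻¹ * g) ≠ 1 := by
        intro h1
        apply hx
        apply Subtype.ext
        exact (inv_mul_eq_one.1 h1)
      simp [dlt, this]
    · intro h1; exact absurd (Finset.mem_univ _) h1
  · rw [Finset.sum_eq_zero, mul_zero]
    intro x _
    have : ((x : G)⁻¹ * g) ≠ 1 := by
      intro h1
      apply h
      rw [← inv_mul_eq_one.1 h1]
      exact x.2
    simp [dlt, this]

end avg

/-! ## Matrices -/

variable {F : Type} [Field F]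

/-- a matrix of `SL₂` from its entries -/
def mk4 (a b c d : F) (h : a * d - b * c = 1) : SLn 2 F :=
  ⟨!![a, b; c, d], by rw [Matrix.det_fin_two_of, h]⟩

theorem sl_ext {g h : SLn 2 F} (h00 : g.1 0 0 = h.1 0 0) (h01 : g.1 0 1 = h.1 0 1)
    (h10 : g.1 1 0 = h.1 1 0) (h11 : g.1 1 1 = h.1 1 1) : g = h := by
  apply Subtype.ext
  ext i j
  fin_cases i <;> fin_cases j <;> assumption

theorem mul_ent (g h : SLn 2 F) (i j : Fin 2) :
    (g * h).1 i j = g.1 i 0 * h.1 0 j + g.1 i 1 * h.1 1 j := by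
  show (g.1 * h.1) i j = _
  rw [Matrix.mul_apply, Fin.sum_univ_two]

theorem one_ent : ((1 : SLn 2 F).1 0 0 = 1 ∧ (1 : SLn 2 F).1 0 1 = 0) ∧
    ((1 : SLn 2 F).1 1 0 = 0 ∧ (1 : SLn 2 F).1 1 1 = 1) := by
  refine ⟨⟨?_, ?_⟩, ⟨?_, ?_⟩⟩ <;> simp [Matrix.SpecialLinearGroup.coe_one]

theorem det_ent (g : SLn 2 F) : g.1 0 0 * g.1 1 1 - g.1 0 1 * g.1 1 0 = 1 := by
  have := g.2
  rwa [Matrix.det_fin_two] at this

/-- `(g gᵀ)₁₁` -/
def cc (g : SLn 2 F) : F := g.1 1 0 ^ 2 + g.1 1 1 ^ 2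

/-- `(g gᵀ)₀₁` -/
def bb (g : SLn 2 F) : F := g.1 0 0 * g.1 1 0 + g.1 0 1 * g.1 1 1

theorem cc_ne (h : ¬ IsSquare (-1 : F)) (g : SLn 2 F) : cc g ≠ 0 := by
  intro h0
  have h1 := sumsq_ne h h0
  have h2 := det_ent g
  rw [h1.1, h1.2] at h2
  simp at h2

/-- diagonal matrices -/
def dT (t : Fˣ) : SLn 2 F := mk4 (t : F) 0 0 ((t⁻¹ : Fˣ) : F) (by simp)

/-- the Weyl element -/
def wJ : SLn 2 F := mk4 0 1 (-1) 0 (by ring)

/-- translations -/
def uS (s : F) : SLn 2 F := mk4 1 s 0 1 (by ring)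

theorem dT_mul (t s : Fˣ) : dT (t * s) = dT t * dT s := by
  apply sl_ext <;> rw [mul_ent] <;> simp [dT, mk4, mul_comm]

theorem dT_one : dT (1 : Fˣ) = 1 := by
  obtain ⟨⟨h1, h2⟩, ⟨h3, h4⟩⟩ := one_ent (F := F)
  apply sl_ext <;> simp [dT, mk4, h1, h2, h3, h4]

/-- the homomorphism `t ↦ diag(t, t⁻¹)` -/
def dTh (F : Type) [Field F] : Fˣ →* SLn 2 F where
  toFun := dT
  map_one' := dT_one
  map_mul' := dT_mul

theorem dT_inv (t : Fˣ) : (dT t)⁻¹ = dT t⁻¹ := (map_inv (dTh F) t).symm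

theorem uS_add (s t : F) : uS (s + t) = uS s * uS t := by
  apply sl_ext <;> rw [mul_ent] <;> simp [uS, mk4, add_comm]

theorem uS_zero : uS (0 : F) = 1 := by
  obtain ⟨⟨h1, h2⟩, ⟨h3, h4⟩⟩ := one_ent (F := F)
  apply sl_ext <;> simp [uS, mk4, h1, h2, h3, h4]

theorem uS_inv (s : F) : (uS s)⁻¹ = uS (-s) := by
  rw [inv_eq_iff_mul_eq_one, ← uS_add, add_neg_cancel, uS_zero]

theorem cc_dT (t : Fˣ) (g : SLn 2 F) : cc (dT t * g) = ((t⁻¹ : Fˣ) : F) ^ 2 * cc g := by
  unfold cc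
  rw [mul_ent, mul_ent]
  simp only [dT, mk4, Matrix.of_apply, Matrix.cons_val', Matrix.cons_val_zero, Matrix.cons_val_one]
  ring

theorem bb_dT (t : Fˣ) (g : SLn 2 F) : bb (dT t * g) = bb g := by
  unfold bb
  rw [mul_ent, mul_ent, mul_ent, mul_ent]
  have : (t : F) * ((t⁻¹ : Fˣ) : F) = 1 := by simp
  simp only [dT, mk4, Matrix.of_apply, Matrix.cons_val', Matrix.cons_val_zero, Matrix.cons_val_one]
  linear_combination (g.1 0 0 * g.1 1 0 + g.1 0 1 * g.1 1 1) * this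

theorem cc_uS (s : F) (g : SLn 2 F) : cc (uS s * g) = cc g := by
  unfold cc
  rw [mul_ent, mul_ent]
  simp only [uS, mk4, Matrix.of_apply, Matrix.cons_val', Matrix.cons_val_zero, Matrix.cons_val_one]
  ring

theorem bb_uS (s : F) (g : SLn 2 F) : bb (uS s * g) = bb g + s * cc g := by
  unfold bb cc
  rw [mul_ent, mul_ent, mul_ent, mul_ent]
  simp only [uS, mk4, Matrix.of_apply, Matrix.cons_val', Matrix.cons_val_zero, Matrix.cons_val_one]
  ring

/-! ## The two dihedral groups -/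

/-- the split torus -/
def TT (F : Type) [Field F] : Subgroup (SLn 2 F) := (dTh F).range

theorem mem_TT {g : SLn 2 F} : g ∈ TT F ↔ ∃ t : Fˣ, dT t = g := Iff.rfl

theorem dT_inj : Function.Injective (dT : Fˣ → SLn 2 F) := by
  intro s t h
  have h1 : (dT s).1 0 0 = (dT t).1 0 0 := by rw [h]
  exact Units.ext h1

theorem card_TT [Finite F] : Nat.card (TT F) = Nat.card F - 1 := by
  have e : Nat.card (TT F) = Nat.card Fˣ :=
    (Nat.card_congr (MonoidHom.ofInjective (f := dTh F) dT_inj).toEquiv).symm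
  rw [e, Nat.card_units]

/-- the nonsplit torus -/
def CC (F : Type) [Field F] : Subgroup (SLn 2 F) where
  carrier := {g | g.1 0 0 = g.1 1 1 ∧ g.1 0 1 = -g.1 1 0}
  one_mem' := by
    obtain ⟨⟨h1, h2⟩, ⟨h3, h4⟩⟩ := one_ent (F := F)
    exact ⟨by rw [h1, h4], by rw [h2, h3, neg_zero]⟩
  mul_mem' := by
    rintro a b ⟨h1, h2⟩ ⟨h3, h4⟩
    constructor
    · rw [mul_ent, mul_ent, h1, h2, h3, h4]; ring
    · rw [mul_ent, mul_ent, h1, h2, h3, h4]; ring
  inv_mem' := by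
    rintro a ⟨h1, h2⟩
    have e : (a⁻¹).1 = a.1.adjugate := Matrix.SpecialLinearGroup.coe_inv a
    constructor
    · rw [e, Matrix.adjugate_fin_two]
      simp [h1]
    · rw [e, Matrix.adjugate_fin_two]
      simp [h2]

theorem mem_CC {g : SLn 2 F} : g ∈ CC F ↔ g.1 0 0 = g.1 1 1 ∧ g.1 0 1 = -g.1 1 0 := Iff.rfl

theorem card_CC [Finite F] (h : ¬ IsSquare (-1 : F)) : Nat.card (CC F) = Nat.card F + 1 := by
  rw [← card_circle h]
  apply Nat.card_congr
  refine
    { toFun := fun g => ⟨(g.1.1 1 1, g.1.1 1 0), ?_⟩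
      invFun := fun p => ⟨mk4 p.1.1 (-p.1.2) p.1.2 p.1.1 (by linear_combination p.2), ?_⟩
      left_inv := ?_
      right_inv := ?_ }
  · have h1 := det_ent g.1
    obtain ⟨h2, h3⟩ := g.2
    show g.1.1 1 1 ^ 2 + g.1.1 1 0 ^ 2 = 1
    rw [h2, h3] at h1
    linear_combination h1
  · constructor <;> simp [mk4]
  · rintro ⟨g, h2, h3⟩
    apply Subtype.ext
    apply sl_ext
    · simp [mk4, h2]
    · simp [mk4, h3]
    · simp [mk4]
    · simp [mk4]
  · rintro ⟨⟨x, y⟩, hp⟩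
    apply Subtype.ext
    simp [mk4]

end Pool.Agent.Helper84.MXP
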