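import Pool.Agent.Helper84.MXP.Core

/-!
# `SL₂(F)`, `-1` not a square, part 2: the two dihedral groups and the functions they produce
-/

set_option autoImplicit false
set_option linter.unusedSectionVars false

namespace Pool.Agent.Helper84.MXP

open Pool.Agent.Helper70.ML Pool.Agent.Helper75.MX

/-! ## Averages, continued -/

section avg

variable {G : Type} [Group G] [Finite G]

theorem avK_L (K : Subgroup G) (f : G → ℝ) {k : G} (hk : k ∈ K) : avK K (L k f) = avK K f := by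
  classical
  have : Fintype K := Fintype.ofFinite K
  funext g
  rw [avK_apply, avK_apply]
  congr 1
  rw [← Equiv.sum_comp (Equiv.mulRight (⟨k, hk⟩ : K)⁻¹)]
  apply Finset.sum_congr rfl
  intro x _
  show f (k⁻¹ * (((x : G) * (k)⁻¹)⁻¹ * g)) = f ((x : G)⁻¹ * g)
  congr 1
  group

theorem avK_const (K : Subgroup G) (c : ℝ) : avK K (fun _ => c) = fun _ => c := by
  classical
  have : Fintype K := Fintype.ofFinite K
  funext g
  rw [avK_apply, Finset.sum_const, Finset.card_univ, ← Nat.card_eq_fintype_card, nsmul_eq_mul]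
  have : (Nat.card K : ℝ) ≠ 0 := by exact_mod_cast Nat.card_pos.ne'
  field_simp

theorem avK_of_const {ι : Type} [Fintype ι] [Nonempty ι] (K : Subgroup G) (f : G → ℝ) (x : ι → G)
    (hx : ∀ i, x i ∈ K) (c : ℝ) (h : ∀ g, ∑ i, f ((x i)⁻¹ * g) = c) :
    avK K f = fun _ => c / (Fintype.card ι : ℝ) := by
  classical
  have : Fintype K := Fintype.ofFinite K
  have hc : (Fintype.card ι : ℝ) ≠ 0 := by exact_mod_cast Fintype.card_ne_zero
  have hK : (Nat.card K : ℝ) ≠ 0 := by exact_mod_cast Nat.card_pos.ne'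
  funext g
  have e1 : ∀ i, avK K f g = avK K (L (x i) f) g := fun i => by rw [avK_L K f (hx i)]
  have e2 : (Fintype.card ι : ℝ) * avK K f g = c := by
    calc (Fintype.card ι : ℝ) * avK K f g = ∑ _i : ι, avK K f g := by
          rw [Finset.sum_const, Finset.card_univ, nsmul_eq_mul]
      _ = ∑ i : ι, avK K (L (x i) f) g := Finset.sum_congr rfl (fun i _ => e1 i)
      _ = ∑ i : ι, (1 / (Nat.card K : ℝ)) * ∑ y : K, f ((x i)⁻¹ * ((y : G)⁻¹ * g)) := by
          apply Finset.sum_congr rfl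
          intro i _
          rw [avK_apply]
          rfl
      _ = (1 / (Nat.card K : ℝ)) * ∑ y : K, ∑ i : ι, f ((x i)⁻¹ * ((y : G)⁻¹ * g)) := by
          rw [← Finset.mul_sum, Finset.sum_comm]
      _ = (1 / (Nat.card K : ℝ)) * ∑ y : K, c := by
          congr 1
          apply Finset.sum_congr rfl
          intro y _
          exact h _
      _ = c := by
          rw [Finset.sum_const, Finset.card_univ, ← Nat.card_eq_fintype_card, nsmul_eq_mul]
          field_simp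
  rw [← e2]
  field_simp

end avg

variable {F : Type} [Field F]

/-! ## The nonsplit group -/

/-- an element of the nonsplit torus normaliser -/
def rR (a b : F) (h : a ^ 2 + b ^ 2 = -1) : SLn 2 F := mk4 a b b (-a) (by linear_combination -h)

theorem neg_one_sl : ∃ m : SLn 2 F, (m.1 0 0 = -1 ∧ m.1 0 1 = 0) ∧ (m.1 1 0 = 0 ∧ m.1 1 1 = -1) :=
  ⟨mk4 (-1) 0 0 (-1) (by ring), by simp [mk4]⟩

/-- minus one -/
def mOne (F : Type) [Field F] : SLn 2 F := mk4 (-1) 0 0 (-1) (by ring)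

theorem mOne_sq : mOne F * mOne F = 1 := by
  obtain ⟨⟨h1, h2⟩, ⟨h3, h4⟩⟩ := one_ent (F := F)
  apply sl_ext <;> rw [mul_ent] <;> simp [mOne, mk4, h1, h2, h3, h4]

theorem mOne_mem_CC : mOne F ∈ CC F := by
  rw [mem_CC]; simp [mOne, mk4]

theorem mOne_mem_TT : mOne F ∈ TT F := by
  rw [mem_TT]
  refine ⟨-1, ?_⟩
  apply sl_ext <;> simp [mOne, dT, mk4]

theorem rR_sq (a b : F) (h : a ^ 2 + b ^ 2 = -1) : rR a b h * rR a b h = mOne F := by
  apply sl_ext <;> rw [mul_ent] <;> simp [mOne, rR, mk4]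
  · linear_combination h
  · ring
  · ring
  · linear_combination h

theorem rR_inv (a b : F) (h : a ^ 2 + b ^ 2 = -1) :
    (rR a b h)⁻¹ = mOne F * rR a b h := by
  rw [inv_eq_iff_mul_eq_one]
  have h1 := rR_sq a b h
  have h2 : mOne F * rR a b h = rR a b h * mOne F := by
    apply sl_ext <;> rw [mul_ent, mul_ent] <;> simp [mOne, rR, mk4]
  rw [h2, ← mul_assoc, h1, mOne_sq]

theorem rR_conj (a b : F) (h : a ^ 2 + b ^ 2 = -1) (t : SLn 2 F) (ht : t ∈ CC F) :
    rR a b h * t * (rR a b h)⁻¹ = t⁻¹ := by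
  obtain ⟨h1, h2⟩ := mem_CC.1 ht
  have hd := det_ent t
  rw [mul_inv_eq_iff_eq_mul, eq_inv_mul_iff_mul_eq]
  have hd' : t.1 1 1 ^ 2 + t.1 1 0 ^ 2 = 1 := by
    rw [h1, h2] at hd
    linear_combination hd
  apply sl_ext <;> simp only [mul_ent] <;> simp [rR, mk4, h1, h2]
  · linear_combination a * hd'
  · linear_combination b * hd'
  · linear_combination b * hd'
  · linear_combination -a * hd'

theorem exists_neg_one (F : Type) [Field F] [Finite F] : ∃ a b : F, a ^ 2 + b ^ 2 = -1 := by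
  obtain ⟨p, hp⟩ := CharP.exists F
  have hpp : p.Prime := CharP.char_is_prime F p
  have : NeZero p := ⟨hpp.ne_zero⟩
  obtain ⟨a, b, hab⟩ := CharP.sq_add_sq F p (-1)
  exact ⟨a, b, by simpa using hab⟩

/-- the nonsplit dihedral group -/
theorem exKD [Finite F] (h : ¬ IsSquare (-1 : F)) :
    ∃ (K : Subgroup (SLn 2 F)) (k : ℕ), (∀ g, g ∈ K ↔ bb g = 0 ∧ (cc g = 1 ∨ cc g = -1)) ∧
      Mix K k ∧ Nat.card K = 2 * (Nat.card F + 1) ∧ 2 ^ k ≤ wt (2 * (Nat.card F + 1)) := by
  classical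
  obtain ⟨a, b, hab⟩ := exists_neg_one F
  have h2 := two_ne h
  have hcomm : ∀ x ∈ CC F, ∀ y ∈ CC F, x * y = y * x := by
    intro x hx y hy
    obtain ⟨h1, h2⟩ := mem_CC.1 hx
    obtain ⟨h3, h4⟩ := mem_CC.1 hy
    apply sl_ext <;> simp only [mul_ent] <;> simp only [h1, h2, h3, h4] <;> ring
  have hrC : rR a b hab ∉ CC F := by
    intro hr
    obtain ⟨h3, h4⟩ := mem_CC.1 hr
    simp only [rR, mk4, Matrix.of_apply, Matrix.cons_val', Matrix.cons_val_zero,
      Matrix.cons_val_one, Matrix.cons_val_fin_one] at h3 h4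
    have ha : a = 0 := by
      have : 2 * a = 0 := by linear_combination h3
      exact (mul_eq_zero.1 this).resolve_left h2
    have hb : b = 0 := by
      have : 2 * b = 0 := by linear_combination h4
      exact (mul_eq_zero.1 this).resolve_left h2
    rw [ha, hb] at hab
    apply neg_ne_zero.2 (one_ne_zero (α := F))
    rw [← hab]
    ring
  have hr4 : rR a b hab ^ 4 = 1 := by
    have : rR a b hab ^ 4 = (rR a b hab * rR a b hab) * (rR a b hab * rR a b hab) := by
      rw [show (4 : ℕ) = 1 + 1 + 1 + 1 by norm_num, pow_add, pow_add, pow_add, pow_one]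
      group
    rw [this, rR_sq, mOne_sq]
  obtain ⟨K, k, hK, hm, hcard, hwt⟩ := dihWt (SLn 2 F) (CC F) (rR a b hab) hcomm hrC
    (by rw [rR_sq]; exact mOne_mem_CC) hr4 (fun t ht => rR_conj a b hab t ht)
  rw [card_CC h] at hcard
  rw [hcard] at hwt
  refine ⟨K, k, ?_, hm, hcard, hwt⟩
  intro g
  rw [hK]
  have hd := det_ent g
  constructor
  · rintro (hg | ⟨t, ht, rfl⟩)
    · obtain ⟨h3, h4⟩ := mem_CC.1 hg
      unfold bb cc
      rw [h3, h4] at hd ⊢
      exact ⟨by ring, Or.inl (by linear_combination hd)⟩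
    · obtain ⟨h3, h4⟩ := mem_CC.1 ht
      have hd' := det_ent t
      unfold bb cc
      rw [h3, h4] at hd'
      simp only [mul_ent, h3, h4]
      simp only [rR, mk4, Matrix.of_apply, Matrix.cons_val', Matrix.cons_val_zero,
        Matrix.cons_val_one, Matrix.cons_val_fin_one]
      refine ⟨by ring, Or.inr ?_⟩
      linear_combination (a ^ 2 + b ^ 2) * hd' + hab
  · rintro ⟨hb, hc | hc⟩
    · left
      rw [mem_CC]
      unfold bb cc at *
      constructor
      · linear_combination (-g.1 0 0) * hc + g.1 1 0 * hb + g.1 1 1 * hd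
      · linear_combination (-g.1 0 1) * hc + g.1 1 1 * hb - g.1 1 0 * hd
    · right
      refine ⟨g * (rR a b hab)⁻¹, ?_, by group⟩
      have e1 : g.1 0 0 = -g.1 1 1 := by
        unfold bb cc at *
        linear_combination (g.1 0 0) * hc - g.1 1 0 * hb - g.1 1 1 * hd
      have e2 : g.1 0 1 = g.1 1 0 := by
        unfold bb cc at *
        linear_combination (g.1 0 1) * hc - g.1 1 1 * hb + g.1 1 0 * hd
      rw [rR_inv, mem_CC]
      simp only [mul_ent, e1, e2]
      simp only [rR, mOne, mk4, Matrix.of_apply, Matrix.cons_val', Matrix.cons_val_zero,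
        Matrix.cons_val_one, Matrix.cons_val_fin_one]
      constructor <;> ring

/-- the split dihedral group -/
theorem exKA [Finite F] :
    ∃ (K : Subgroup (SLn 2 F)) (k : ℕ), (∀ g, g ∈ K ↔ g ∈ TT F ∨ ∃ t ∈ TT F, g = t * wJ) ∧
      Mix K k ∧ 2 ^ k ≤ wt (2 * (Nat.card F - 1)) := by
  classical
  have hw2 : wJ * wJ = mOne F := by
    apply sl_ext <;> rw [mul_ent] <;> simp [mOne, wJ, mk4]
  have hcomm : ∀ x ∈ TT F, ∀ y ∈ TT F, x * y = y * x := by
    rintro _ ⟨x, rfl⟩ _ ⟨y, rfl⟩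
    rw [← map_mul, ← map_mul, mul_comm]
  have hwT : wJ ∉ TT F := by
    rintro ⟨t, ht⟩
    have : (dT t).1 0 0 = (wJ : SLn 2 F).1 0 0 := by
      rw [← ht]; rfl
    simp [dT, wJ, mk4] at this
  have hw4 : (wJ : SLn 2 F) ^ 4 = 1 := by
    have : (wJ : SLn 2 F) ^ 4 = (wJ * wJ) * (wJ * wJ) := by
      rw [show (4 : ℕ) = 1 + 1 + 1 + 1 by norm_num, pow_add, pow_add, pow_add, pow_one]
      group
    rw [this, hw2, mOne_sq]
  have hinv : ∀ t ∈ TT F, wJ * t * wJ⁻¹ = t⁻¹ := by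
    rintro _ ⟨t, rfl⟩
    show wJ * dT t * wJ⁻¹ = (dT t)⁻¹
    rw [dT_inv, mul_inv_eq_iff_eq_mul]
    apply sl_ext <;> simp only [mul_ent] <;> simp [dT, wJ, mk4]
  obtain ⟨K, k, hK, hm, hcard, hwt⟩ := dihWt (SLn 2 F) (TT F) wJ hcomm hwT
    (by rw [hw2]; exact mOne_mem_TT) hw4 hinv
  rw [card_TT] at hcard
  rw [hcard] at hwt
  exact ⟨K, k, hK, hm, hwt⟩

/-- `K` for the split group: `bb` changes at most by a sign -/
theorem bb_KA {K : Subgroup (SLn 2 F)} (hK : ∀ g, g ∈ K ↔ g ∈ TT F ∨ ∃ t ∈ TT F, g = t * wJ)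
    {x : SLn 2 F} (hx : x ∈ K) {g : SLn 2 F} (hg : bb (x⁻¹ * g) = 0) : bb g = 0 := by
  rcases (hK x).1 hx with ⟨t, rfl⟩ | ⟨_, ⟨t, rfl⟩, rfl⟩
  · change bb ((dT t)⁻¹ * g) = 0 at hg
    rwa [dT_inv, bb_dT] at hg
  · change bb ((dT t * wJ)⁻¹ * g) = 0 at hg
    have e : (dT t * wJ)⁻¹ * g = wJ⁻¹ * (dT t⁻¹ * g) := by
      rw [mul_inv_rev, dT_inv, mul_assoc]
    have e2 : (wJ : SLn 2 F)⁻¹ = mOne F * wJ := by
      rw [inv_eq_iff_mul_eq_one]
      obtain ⟨⟨h1, h2⟩, ⟨h3, h4⟩⟩ := one_ent (F := F)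
      apply sl_ext <;> simp only [mul_ent] <;> simp [wJ, mOne, mk4, h1, h2, h3, h4]
    rw [e, e2, mul_assoc] at hg
    have e3 : ∀ h : SLn 2 F, bb (mOne F * (wJ * h)) = -bb h := by
      intro h
      unfold bb
      simp only [mul_ent]
      simp only [wJ, mOne, mk4, Matrix.of_apply, Matrix.cons_val', Matrix.cons_val_zero,
        Matrix.cons_val_one, Matrix.cons_val_fin_one]
      ring
    rw [e3, bb_dT, neg_eq_zero] at hg
    exact hg

end Pool.Agent.Helper84.MXP
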