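import Pool.Agent.Helper84.MXP.Core2

/-!
# `SL₂(F)`, `-1` not a square, part 3: the uniform distribution
-/

set_option autoImplicit false
set_option linter.unusedSectionVars false

namespace Pool.Agent.Helper84.MXP

open Pool.Agent.Helper70.ML Pool.Agent.Helper75.MX

variable {F : Type} [Field F]

theorem ringChar_ne (h2 : (2 : F) ≠ 0) : ringChar F ≠ 2 := by
  intro h
  apply h2
  have : ((2 : ℕ) : F) = 0 := by
    rw [← h]; exact ringChar.Nat.cast_ringChar
  exact_mod_cast this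

/-- the number of `t` with `b = s t² c` -/
theorem count_t [Fintype F] [DecidableEq F] (h2 : (2 : F) ≠ 0) {s c : F} (hs : s ≠ 0)
    (hc : c ≠ 0) {b : F} (hb : b ≠ 0) :
    (∑ t : Fˣ, (if b = s * ((t : F) ^ 2 * c) then (1 : ℝ) else 0)) =
      1 + (quadraticChar F (b * c) : ℝ) * (quadraticChar F s : ℝ) := by
  have h := quadraticChar_card_sqrts (ringChar_ne h2) (b / (s * c))
  have hsc : s * c ≠ 0 := mul_ne_zero hs hc
  have e1 : quadraticChar F (b / (s * c)) = quadraticChar F (b * c) * quadraticChar F s := by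
    have : b / (s * c) * (s * c) ^ 2 = b * c * s := by field_simp
    have h3 := congrArg (quadraticChar F) this
    rw [map_mul, quadraticChar_sq_one' hsc, mul_one, map_mul (quadraticChar F) (b * c)] at h3
    exact h3
  rw [e1] at h
  rw [← Finset.sum_filter, Finset.sum_const, nsmul_eq_mul, mul_one]
  have h4 : (Finset.univ.filter fun t : Fˣ => b = s * ((t : F) ^ 2 * c)).card =
      ({x : F | x ^ 2 = b / (s * c)}.toFinset).card := by
    apply Finset.card_bij (fun (t : Fˣ) _ => (t : F))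
    · intro t ht
      have ht' := (Finset.mem_filter.1 ht).2
      rw [Set.mem_toFinset, Set.mem_setOf_eq, eq_div_iff hsc, ht']
      ring
    · intro t _ u _ htu
      exact Units.ext htu
    · intro x hx
      rw [Set.mem_toFinset, Set.mem_setOf_eq, eq_div_iff hsc] at hx
      have hx0 : x ≠ 0 := by
        rintro rfl
        apply hb
        rw [← hx]; ring
      refine ⟨Units.mk0 x hx0, Finset.mem_filter.2 ⟨Finset.mem_univ _, ?_⟩, rfl⟩
      rw [← hx, Units.val_mk0]
      ring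
  rw [h4]
  have h5 : ((({x : F | x ^ 2 = b / (s * c)}.toFinset).card : ℤ) : ℝ) =
      ((quadraticChar F (b * c) * quadraticChar F s + 1 : ℤ) : ℝ) := by rw [h]
  push_cast at h5
  rw [h5]
  ring

/-- the two translations -/
theorem exS [Finite F] (h : ¬ IsSquare (-1 : F)) (hF : 3 < Nat.card F) :
    ∃ s₁ s₂ : F, s₁ ≠ 0 ∧ s₂ ≠ 0 ∧ s₁ + s₂ ≠ 0 ∧ IsSquare s₁ ∧ ¬ IsSquare s₂ ∧ IsSquare (s₁ + s₂) := by
  classical
  have := Fintype.ofFinite F
  obtain ⟨t, ht⟩ : ∃ t : F, t ∉ ({0, 1, -1} : Finset F) := by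
    by_contra hall
    push Not at hall
    have h1 : (Finset.univ : Finset F) ⊆ {0, 1, -1} := fun x _ => hall x
    have h2 := Finset.card_le_card h1
    rw [Finset.card_univ, ← Nat.card_eq_fintype_card] at h2
    have h3 : ({0, 1, -1} : Finset F).card ≤ 3 := Finset.card_le_three
    omega
  simp only [Finset.mem_insert, Finset.mem_singleton, not_or] at ht
  obtain ⟨ht0, ht1, ht2⟩ := ht
  have hu : t ^ 2 - 1 ≠ 0 := by
    intro h0
    have : (t - 1) * (t + 1) = 0 := by linear_combination h0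
    rcases mul_eq_zero.1 this with h1 | h1
    · exact ht1 (by linear_combination h1)
    · exact ht2 (by linear_combination h1)
  have hsq : IsSquare (t ^ 2) := ⟨t, by ring⟩
  by_cases hs : IsSquare (t ^ 2 - 1)
  · refine ⟨t ^ 2, 1 - t ^ 2, pow_ne_zero 2 ht0, ?_, by ring_nf; exact one_ne_zero, hsq, ?_, ?_⟩
    · intro h0; exact hu (by linear_combination -h0)
    · rintro ⟨x, hx⟩
      obtain ⟨y, hy⟩ := hs
      apply h
      have hy0 : y ≠ 0 := by
        rintro rfl
        exact hu (by rw [hy]; ring)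
      refine ⟨x / y, ?_⟩
      have : (-1 : F) * (y * y) = x * x := by rw [← hx, ← hy]; ring
      field_simp
      linear_combination this
    · exact ⟨1, by ring⟩
  · refine ⟨1, t ^ 2 - 1, one_ne_zero, hu, ?_, ⟨1, by ring⟩, hs, ?_⟩
    · ring_nf
      exact pow_ne_zero 2 ht0
    · ring_nf
      exact ⟨t, by ring⟩

/-- the sum over the split torus of the function after the two lazy translations -/
theorem sum_torus [Fintype F] [DecidableEq F] (h2 : (2 : F) ≠ 0) {s₁ s₂ : F} (h10 : s₁ ≠ 0)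
    (h20 : s₂ ≠ 0) (h30 : s₁ + s₂ ≠ 0) (h1 : IsSquare s₁) (hs2 : ¬ IsSquare s₂)
    (h3 : IsSquare (s₁ + s₂)) {c : F} (hc : c ≠ 0) (b : F) (q : ℝ) (hq : q = (Nat.card F : ℝ))
    (hq1 : 1 < q) :
    ∑ t : Fˣ,
      ((1 - (q - 1) / (2 * q)) * (1 - (q - 1) / (q + 1)) * (if b = 0 then (1 : ℝ) else 0) +
        (1 - (q - 1) / (2 * q)) * ((q - 1) / (q + 1)) *
          (if b = s₂ * ((t : F) ^ 2 * c) then (1 : ℝ) else 0) +
        (q - 1) / (2 * q) * (1 - (q - 1) / (q + 1)) *
          (if b = s₁ * ((t : F) ^ 2 * c) then (1 : ℝ) else 0) +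
        (q - 1) / (2 * q) * ((q - 1) / (q + 1)) *
          (if b = (s₁ + s₂) * ((t : F) ^ 2 * c) then (1 : ℝ) else 0)) = (q - 1) / q := by
  have hq0 : q ≠ 0 := by linarith
  have hq2 : q + 1 ≠ 0 := by linarith
  rw [Finset.sum_add_distrib, Finset.sum_add_distrib, Finset.sum_add_distrib,
    ← Finset.mul_sum, ← Finset.mul_sum, ← Finset.mul_sum, ← Finset.mul_sum]
  by_cases hb : b = 0
  · have e : ∀ s : F, s ≠ 0 → (∑ t : Fˣ, (if b = s * ((t : F) ^ 2 * c) then (1 : ℝ) else 0)) = 0 := by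
      intro s hs
      apply Finset.sum_eq_zero
      intro t _
      rw [if_neg]
      rw [hb]
      exact (mul_ne_zero hs (mul_ne_zero (pow_ne_zero 2 t.ne_zero) hc)).symm
    rw [e s₁ h10, e s₂ h20, e _ h30, if_pos hb, Finset.sum_const, Finset.card_univ,
      ← Nat.card_eq_fintype_card, Nat.card_units, nsmul_eq_mul, mul_one]
    have : (((Nat.card F - 1 : ℕ) : ℝ)) = q - 1 := by
      rw [hq, Nat.cast_sub Finite.one_lt_card.le]
      simp
    rw [this]
    field_simp
    ring
  · have c1 : quadraticChar F s₁ = 1 := (quadraticChar_one_iff_isSquare h10).2 h1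
    have c2 : quadraticChar F s₂ = -1 := quadraticChar_neg_one_iff_not_isSquare.2 hs2
    have c3 : quadraticChar F (s₁ + s₂) = 1 := (quadraticChar_one_iff_isSquare h30).2 h3
    rw [count_t h2 h10 hc hb, count_t h2 h20 hc hb, count_t h2 h30 hc hb, c1, c2, c3, if_neg hb,
      Finset.sum_const_zero]
    push_cast
    field_simp
    ring

/-- **`SL₂(F)` with `-1` not a square, `|F| > 3`**: uniform after few lazy steps. -/
theorem mixSL2 [Finite F] (h : ¬ IsSquare (-1 : F)) (hF : 3 < Nat.card F) :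
    ∃ kd ka : ℕ, Mix (SLn 2 F) (kd + ka + (1 + 1) + ka) ∧ 2 ^ kd ≤ wt (2 * (Nat.card F + 1)) ∧
      2 ^ ka ≤ wt (2 * (Nat.card F - 1)) := by
  classical
  have := Fintype.ofFinite F
  have := Fintype.ofFinite (SLn 2 F)
  have h2 := two_ne h
  obtain ⟨KD, kd, hKD, hmD, hcD, hwD⟩ := exKD h
  obtain ⟨KA, ka, hKA, hmA, hwA⟩ := exKA (F := F)
  obtain ⟨s₁, s₂, h10, h20, h30, h1, hs2, h3⟩ := exS h hF
  refine ⟨kd, ka, ?_, hwD, hwA⟩
  set q : ℝ := (Nat.card F : ℝ) with hq
  have hq1 : 1 < q := by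
    rw [hq]; exact_mod_cast Finite.one_lt_card
  have hq0 : q ≠ 0 := by linarith
  have hq2 : q + 1 ≠ 0 := by linarith
  set p₁ : ℝ := (q - 1) / (2 * q) with hp₁
  set p₂ : ℝ := (q - 1) / (q + 1) with hp₂
  have hp1a : 0 ≤ p₁ := div_nonneg (by linarith) (by linarith)
  have hp1b : p₁ ≤ 1 := by rw [hp₁, div_le_one (by linarith)]; linarith
  have hp2a : 0 ≤ p₂ := div_nonneg (by linarith) (by linarith)
  have hp2b : p₂ ≤ 1 := by rw [hp₂, div_le_one (by linarith)]; linarith
  set f1 := avK KD (dlt (SLn 2 F)) with hf1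
  set f2 := avK KA f1 with hf2
  set f3 := lz (uS s₁) p₁ (lz (uS s₂) p₂ f2) with hf3
  -- f1
  have e1 : ∀ g, f1 g = if g ∈ KD then 1 / (Nat.card KD : ℝ) else 0 := avK_dlt KD
  have r1 : ∀ k ∈ KD, ∀ g, f1 (g * k) = f1 g := by
    intro k hk g
    rw [e1, e1]
    congr 1
    rw [eq_iff_iff]
    exact ⟨fun hgk => by simpa using KD.mul_mem hgk (KD.inv_mem hk), fun hg => KD.mul_mem hg hk⟩
  -- f2
  have e2 : ∀ g, f2 g = f2 1 * (if bb g = 0 then 1 else 0) := by
    intro g
    by_cases hb : bb g = 0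
    · rw [if_pos hb, mul_one]
      have hc := cc_ne h g
      obtain ⟨s, hs0, hs⟩ : ∃ s : F, s ≠ 0 ∧ (cc g = s ^ 2 ∨ cc g = -s ^ 2) := by
        by_cases hsq : IsSquare (cc g)
        · obtain ⟨s, hs⟩ := hsq
          refine ⟨s, ?_, Or.inl (by rw [hs]; ring)⟩
          rintro rfl
          exact hc (by rw [hs]; ring)
        · have hm : IsSquare (-cc g) := by
            have ha := quadraticChar_neg_one_iff_not_isSquare.2 hsq
            have hb := quadraticChar_neg_one_iff_not_isSquare.2 h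
            apply (quadraticChar_one_iff_isSquare (neg_ne_zero.2 hc)).1
            rw [← neg_one_mul, map_mul, ha, hb]
            norm_num
          obtain ⟨s, hs⟩ := hm
          refine ⟨s, ?_, Or.inr (by rw [← neg_eq_iff_eq_neg, hs]; ring)⟩
          rintro rfl
          exact hc (by rw [← neg_eq_zero, hs]; ring)
      have hk : dT (Units.mk0 s hs0) * g ∈ KD := by
        rw [hKD, bb_dT, cc_dT]
        refine ⟨hb, ?_⟩
        rcases hs with hs | hs
        · left
          rw [hs]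
          simp [hs0]
        · right
          rw [hs]
          simp [hs0]
      have hT : dT (Units.mk0 s hs0) ∈ KA := (hKA _).2 (Or.inl ⟨_, rfl⟩)
      rw [hf2, ← avK_left KA f1 hT g]
      have := avK_right KA (f := f1) (r1 _ hk) 1
      rwa [one_mul] at this
    · rw [if_neg hb, mul_zero, hf2, avK_apply]
      rw [Finset.sum_eq_zero, mul_zero]
      intro x _
      rw [e1, if_neg]
      intro hx
      exact hb (bb_KA hKA x.2 ((hKD _).1 hx).1)
  -- f3
  have e3 : ∀ g, f3 g = f2 1 * ((1 - p₁) * (1 - p₂) * (if bb g = 0 then (1 : ℝ) else 0) +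
        (1 - p₁) * p₂ * (if bb g = s₂ * cc g then (1 : ℝ) else 0) +
        p₁ * (1 - p₂) * (if bb g = s₁ * cc g then (1 : ℝ) else 0) +
        p₁ * p₂ * (if bb g = (s₁ + s₂) * cc g then (1 : ℝ) else 0)) := by
    intro g
    have l2 : ∀ (s : F) (p : ℝ) (f : SLn 2 F → ℝ) (x : SLn 2 F),
        lz (uS s) p f x = (1 - p) * f x + p * f (uS (-s) * x) := by
      intro s p f x
      show (1 - p) * f x + p * f ((uS s)⁻¹ * x) = _
      rw [uS_inv]
    rw [hf3, l2, l2, l2, e2 g, e2 (uS (-s₂) * g), e2 (uS (-s₁) * g), e2 (uS (-s₂) * (uS (-s₁) * g))]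
    simp only [bb_uS, cc_uS]
    have a1 : (bb g + -s₂ * cc g = 0) ↔ (bb g = s₂ * cc g) :=
      ⟨fun h => by linear_combination h, fun h => by linear_combination h⟩
    have a2 : (bb g + -s₁ * cc g = 0) ↔ (bb g = s₁ * cc g) :=
      ⟨fun h => by linear_combination h, fun h => by linear_combination h⟩
    have a3 : (bb g + -s₁ * cc g + -s₂ * cc g = 0) ↔ (bb g = (s₁ + s₂) * cc g) :=
      ⟨fun h => by linear_combination h, fun h => by linear_combination h⟩
    simp only [a1, a2, a3]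
    ring
  -- f4
  have e4 : avK KA f3 = fun _ => f2 1 * ((q - 1) / q) / (Fintype.card Fˣ : ℝ) := by
    have : Nonempty Fˣ := ⟨1⟩
    apply avK_of_const KA f3 (fun t : Fˣ => dT t) (fun t => (hKA _).2 (Or.inl ⟨t, rfl⟩))
    intro g
    rw [← sum_torus h2 h10 h20 h30 h1 hs2 h3 (cc_ne h g) (bb g) q hq hq1, Finset.mul_sum]
    apply Finset.sum_congr rfl
    intro t _
    rw [e3, dT_inv, bb_dT, cc_dT, inv_inv]
  have hreach : Reach (kd + ka + (1 + 1) + ka) (dlt (SLn 2 F)) (avK KA f3) := by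
    refine Reach.trans (Reach.trans (Reach.trans (reach_avK hmD _) (reach_avK hmA _)) ?_)
      (reach_avK hmA _)
    exact Reach.trans (Reach.step hp2a hp2b _) (Reach.step hp1a hp1b _)
  apply Pool.Agent.Helper78.ML.mix_of_const hreach
  intro g
  rw [e4]
  rfl

end Pool.Agent.Helper84.MXP
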