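import Pool.Agent.Helper84.MXP.Cyc
import Pool.Agent.Helper84.MXP.Core4
import Pool.Agent.Helper80.ML.M_LIF

/-!
# Perfect central extensions of `PSL₂(F)` by groups of odd order
-/

set_option autoImplicit false
set_option linter.unusedSectionVars false

namespace Pool.Agent.Helper84.MXP

open Pool.Agent.Helper70.ML Pool.Agent.Helper75.MX

/-- `PSL₂(F)` -/
abbrev PS (F : Type) [Field F] : Type := SLn 2 F ⧸ Subgroup.center (SLn 2 F)

/-- the projection -/
abbrev pr (F : Type) [Field F] : SLn 2 F →* PS F := QuotientGroup.mk' (Subgroup.center (SLn 2 F))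

section cov

variable {F : Type} [Field F] [Finite F] {Q : Type} [Group Q] [Finite Q]

/-- no `ℓ`-part, `ℓ` an odd prime different from the characteristic -/
theorem no_l (hp : commutator Q = ⊤) (ψ : Q →* PS F) (hker : ψ.ker ≤ Subgroup.center Q)
    {l : ℕ} (hl : l.Prime) (hl2 : l ≠ 2) (hlF : (l : F) ≠ 0) {z : Q}
    (hz : z ∈ Subgroup.center Q) (hzl : z ^ l = 1) : z = 1 := by
  have : Fact l.Prime := ⟨hl⟩
  have h1 : IsPGroup l (Subgroup.zpowers z) := by
    rw [IsPGroup.iff_orderOf]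
    rintro ⟨y, hy⟩
    obtain ⟨k, rfl⟩ := Subgroup.mem_zpowers_iff.1 hy
    have h2 : orderOf (z ^ k) ∣ l := by
      apply orderOf_dvd_of_pow_eq_one
      rw [← zpow_natCast, ← zpow_mul, mul_comm, zpow_mul, zpow_natCast, hzl, one_zpow]
    rcases (Nat.dvd_prime hl).1 h2 with h3 | h3
    · exact ⟨0, by rw [Subgroup.orderOf_mk, h3, pow_zero]⟩
    · exact ⟨1, by rw [Subgroup.orderOf_mk, h3, pow_one]⟩
  obtain ⟨P, hP⟩ := h1.exists_le_sylow
  have hcyc : IsCyclic ((P : Subgroup Q).map ψ) := pgroup_cyc hl2 hlF _ (P.2.map ψ)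
  have hcomm : ∀ x ∈ (P : Subgroup Q), ∀ y ∈ (P : Subgroup Q), x * y = y * x := by
    intro x hx y hy
    have h4 : (ψ.subgroupMap (P : Subgroup Q)).ker ≤ Subgroup.center (P : Subgroup Q) := by
      intro a ha
      rw [Subgroup.mem_center_iff]
      intro b
      apply Subtype.ext
      have h5 : (a : Q) ∈ ψ.ker := by
        rw [MonoidHom.mem_ker] at ha ⊢
        exact congrArg Subtype.val ha
      exact Subgroup.mem_center_iff.1 (hker h5) b
    have h6 := commutative_of_cyclic_center_quotient (ψ.subgroupMap (P : Subgroup Q)) h4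
      (⟨x, hx⟩ : (P : Subgroup Q)) ⟨y, hy⟩
    exact congrArg Subtype.val h6
  have h7 := tr_pow hp (P : Subgroup Q) hcomm hz
  have h8 : ¬ l ∣ (P : Subgroup Q).index := P.not_dvd_index
  have h9 : Nat.Coprime l (P : Subgroup Q).index := (Nat.Prime.coprime_iff_not_dvd hl).2 h8
  have h10 : orderOf z ∣ 1 := by
    rw [← h9]
    exact Nat.dvd_gcd (orderOf_dvd_of_pow_eq_one hzl) (orderOf_dvd_of_pow_eq_one h7)
  exact orderOf_eq_one_iff.1 (Nat.dvd_one.1 h10)

/-- the unipotent elements, as a homomorphism -/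
def uSh (F : Type) [Field F] : Multiplicative F →* SLn 2 F where
  toFun := fun a => uS a.toAdd
  map_one' := uS_zero
  map_mul' := fun a b => uS_add a.toAdd b.toAdd

theorem uSh_inj (F : Type) [Field F] : Function.Injective (uSh F) := by
  intro a b h
  have h1 : (uS a.toAdd).1 0 1 = (uS b.toAdd).1 0 1 := by
    have : uS a.toAdd = uS b.toAdd := h
    rw [this]
  simpa [uS, mk4] using h1

/-- the preimage of the unipotent group -/
def UU (ψ : Q →* PS F) : Subgroup Q := ((uSh F).range.map (pr F)).comap ψ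

theorem mem_UU (ψ : Q →* PS F) {x : Q} : x ∈ UU ψ ↔ ∃ a : F, ψ x = pr F (uS a) := by
  unfold UU
  rw [Subgroup.mem_comap, Subgroup.mem_map]
  constructor
  · rintro ⟨_, ⟨a, rfl⟩, h⟩
    exact ⟨a.toAdd, h.symm⟩
  · rintro ⟨a, h⟩
    exact ⟨uS a, ⟨Multiplicative.ofAdd a, rfl⟩, h.symm⟩

theorem index_UU (ψ : Q →* PS F) (hψ : Function.Surjective ψ) :
    (UU ψ).index ∣ (Nat.card F - 1) * (Nat.card F + 1) := by
  have h1 : (UU ψ).index = ((uSh F).range.map (pr F)).index :=
    Subgroup.index_comap_of_surjective _ hψ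
  have h2 : ((uSh F).range.map (pr F)).index ∣ (uSh F).range.index :=
    Subgroup.index_map_dvd _ (QuotientGroup.mk'_surjective _)
  have h3 : (uSh F).range.index = (Nat.card F - 1) * (Nat.card F + 1) := by
    have h4 : Nat.card (uSh F).range = Nat.card F := by
      rw [← Nat.card_congr (MonoidHom.ofInjective (uSh_inj F)).toEquiv]
      rfl
    have h5 := (uSh F).range.card_mul_index
    rw [h4, card_SL2] at h5
    exact Nat.eq_of_mul_eq_mul_left Nat.card_pos h5
  rw [h1, ← h3]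
  exact h2

/-- no `p`-part if the preimage of the unipotent group is commutative -/
theorem no_p (hp : commutator Q = ⊤) (ψ : Q →* PS F) (hψ : Function.Surjective ψ)
    (hU : ∀ x ∈ UU ψ, ∀ y ∈ UU ψ, x * y = y * x) {l : ℕ} (hl : l.Prime) (hlF : (l : F) = 0) {z : Q}
    (hz : z ∈ Subgroup.center Q) (hzl : z ^ l = 1) : z = 1 := by
  have h7 := tr_pow hp (UU ψ) hU hz
  have h8 : z ^ ((Nat.card F - 1) * (Nat.card F + 1)) = 1 := by
    obtain ⟨k, hk⟩ := index_UU ψ hψ
    rw [hk, pow_mul, h7, one_pow]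
  have hlq : l ∣ Nat.card F := by
    have h1 : CharP F l := by
      obtain ⟨p, hpF⟩ := CharP.exists F
      have hpp : p.Prime := CharP.char_is_prime F p
      have : p ∣ l := (CharP.cast_eq_zero_iff F p l).1 hlF
      rw [← (Nat.prime_dvd_prime_iff_eq hpp hl).1 this]
      exact hpF
    have := Fintype.ofFinite F
    obtain ⟨n, -, hn⟩ := FiniteField.card F l
    rw [Nat.card_eq_fintype_card, hn]
    exact dvd_pow_self l n.ne_zero
  have h9 : Nat.Coprime l ((Nat.card F - 1) * (Nat.card F + 1)) := by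
    rw [Nat.Prime.coprime_iff_not_dvd hl]
    intro hd
    have hq : 1 < Nat.card F := Finite.one_lt_card
    have h10 : (Nat.card F - 1) * (Nat.card F + 1) + 1 = Nat.card F * Nat.card F := by
      obtain ⟨r, hr⟩ : ∃ r, Nat.card F = r + 1 := ⟨Nat.card F - 1, by omega⟩
      rw [hr]
      simp only [Nat.add_sub_cancel]
      ring
    have h11 : l ∣ (Nat.card F - 1) * (Nat.card F + 1) + 1 := by
      rw [h10]
      exact Dvd.dvd.mul_right hlq _
    have h12 : l ∣ 1 := (Nat.dvd_add_right hd).1 h11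
    exact hl.one_lt.ne' (Nat.dvd_one.1 h12)
  have h10 : orderOf z ∣ 1 := by
    rw [← h9]
    exact Nat.dvd_gcd (orderOf_dvd_of_pow_eq_one hzl) (orderOf_dvd_of_pow_eq_one h8)
  exact orderOf_eq_one_iff.1 (Nat.dvd_one.1 h10)

theorem dT_uS (t : Fˣ) (a : F) : dT t * uS a * (dT t)⁻¹ = uS ((t : F) ^ 2 * a) := by
  rw [dT_inv]
  apply sl_ext <;> simp only [mul_ent] <;> simp [dT, uS, mk4]
  ring

theorem uS_pow (a : F) (n : ℕ) : uS a ^ n = uS (n * a) := by
  induction n with
  | zero => rw [pow_zero, Nat.cast_zero, zero_mul, uS_zero]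
  | succ n ih => rw [pow_succ, ih, ← uS_add]; push_cast; congr 1; ring

/-- Noncommuting lifts of unipotent elements, `-1` a square. -/
theorem stepP_of (ψ : Q →* PS F) (hψ : Function.Surjective ψ)
    (hker : ψ.ker ≤ Subgroup.center Q) (hodd : Odd (Nat.card ψ.ker)) (hsq : IsSquare (-1 : F))
    {p : ℕ} (hpp : p.Prime) (hp2 : p ≠ 2) (hpF : (p : F) = 0)
    {x y : Q} (hx : x ∈ UU ψ) (hy : y ∈ UU ψ) (hne : x * y ≠ y * x) : StepP Q := by
  obtain ⟨l1, l2, -, l4⟩ := Pool.Agent.Helper80.ML.hLIF Q (PS F) ψ hψ hker hodd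
  obtain ⟨i, hi⟩ := hsq
  have hi0 : i ≠ 0 := by
    rintro rfl
    simp at hi
  obtain ⟨a0, ha0⟩ := (mem_UU ψ).1 hx
  obtain ⟨b0, hb0⟩ := (mem_UU ψ).1 hy
  set t : Fˣ := Units.mk0 i hi0 with ht
  have hcen : dT t * dT t ∈ Subgroup.center (SLn 2 F) := by
    have h1 : ((t * t : Fˣ) : F) = -1 := by
      rw [Units.val_mul, ht, Units.val_mk0, ← hi]
    have h3 : t * t = -1 := Units.ext (by rw [h1]; simp)
    rw [← dT_mul, h3, Matrix.SpecialLinearGroup.mem_center_iff]
    refine ⟨-1, by rw [Fintype.card_fin]; ring, ?_⟩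
    ext r s
    fin_cases r <;> fin_cases s <;> simp [dT, mk4]
  obtain ⟨T, hT, hTT⟩ := l1 (pr F (dT t)) (by
    rw [← map_mul]
    rw [← MonoidHom.mem_ker, QuotientGroup.ker_mk']
    exact hcen)
  obtain ⟨w, hw, hTw⟩ := l2 x T hTT (by
    rw [hT, ha0, ← map_mul, ← map_inv, ← map_mul, dT_uS, ← map_inv, uS_inv]
    congr 2
    rw [ht, Units.val_mk0, pow_two, ← hi]
    ring)
  have hwc : ∀ g : Q, g * w = w * g := Subgroup.mem_center_iff.1 (hker hw)
  have hψw : ψ w = 1 := (MonoidHom.mem_ker).1 hw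
  obtain ⟨a, ha⟩ : ∃ a, a = x * w := ⟨_, rfl⟩
  rw [← ha] at hTw
  have hψa : ψ a = pr F (uS a0) := by rw [ha, map_mul, hψw, mul_one, ha0]
  have hap : a ^ p = 1 := by
    have h1 : a ^ p ∈ ψ.ker := by
      rw [MonoidHom.mem_ker, map_pow, hψa, ← map_pow, uS_pow, hpF, zero_mul, uS_zero, map_one]
    have h2 := Subgroup.mem_center_iff.1 (hker h1) T
    have h3 : T * a ^ p * T⁻¹ = (a ^ p)⁻¹ := by
      rw [← conj_pow, hTw, inv_pow]
    have h4 : a ^ p = (a ^ p)⁻¹ := by
      rw [← h3, h2]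
      group
    apply l4 _ h1
    nth_rewrite 1 [h4]
    group
  obtain ⟨z, hz⟩ : ∃ z, z = a * y * a⁻¹ * y⁻¹ := ⟨_, rfl⟩
  have hzx : z = x * y * x⁻¹ * y⁻¹ := by
    rw [hz, ha, mul_inv_rev]
    calc x * w * y * (w⁻¹ * x⁻¹) * y⁻¹ = x * (w * y) * w⁻¹ * x⁻¹ * y⁻¹ := by group
      _ = x * (y * w) * w⁻¹ * x⁻¹ * y⁻¹ := by rw [hwc y]
      _ = x * y * x⁻¹ * y⁻¹ := by group
  have hcomm : ψ x * ψ y = ψ y * ψ x := by
    rw [ha0, hb0, ← map_mul, ← map_mul, ← uS_add, ← uS_add, add_comm]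
  have hzker : z ∈ ψ.ker := by
    rw [MonoidHom.mem_ker, hzx, map_mul, map_mul, map_mul, map_inv, map_inv, hcomm]
    group
  have hzcen : z ∈ Subgroup.center Q := hker hzker
  have hzc : ∀ g : Q, g * z = z * g := Subgroup.mem_center_iff.1 hzcen
  have hz1 : z ≠ 1 := by
    intro h
    apply hne
    rw [hzx] at h
    calc x * y = (x * y * x⁻¹ * y⁻¹) * (y * x) := by group
      _ = y * x := by rw [h, one_mul]
  have hzp : z ^ p = 1 := by
    have h1 : y * a⁻¹ * y⁻¹ = a⁻¹ * z := by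
      rw [hz]
      group
    have h2 : (y * a⁻¹ * y⁻¹) ^ p = 1 := by
      rw [conj_pow, inv_pow, hap]
      group
    rw [h1, (show Commute a⁻¹ z from hzc a⁻¹).mul_pow, inv_pow, hap, inv_one, one_mul] at h2
    exact h2
  have : Fact p.Prime := ⟨hpp⟩
  have hcard : Nat.card (Subgroup.zpowers z) = p := by
    rw [Nat.card_zpowers]
    exact orderOf_eq_prime hzp hz1
  refine ⟨Subgroup.zpowers z, ?_, ?_, 2 + 2 * cost p, ?_, ?_⟩
  · refine ⟨fun g hg u => ?_⟩
    have hgc : g ∈ Subgroup.center Q := by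
      have : Subgroup.zpowers z ≤ Subgroup.center Q := by rwa [Subgroup.zpowers_le]
      exact this hg
    have h1 : u * g * u⁻¹ = g := by
      rw [Subgroup.mem_center_iff.1 hgc u]
      group
    rw [h1]
    exact hg
  · intro h
    rw [Subgroup.zpowers_eq_bot] at h
    exact hz1 h
  · rw [hcard]
    exact cost_bound hpp hp2
  · intro F
    obtain ⟨F', hr, hs⟩ := stage_comm (q := p) (a := a) (t := T) (n := y) hap hTw hTT
      (by rw [← hz]; exact hzcen) F
    refine ⟨F', hr, ?_⟩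
    rw [Subgroup.zpowers_le, hz]
    exact hs

end cov

end Pool.Agent.Helper84.MXP
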