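import Pool.Agent.Helper84.MXP.Cov
import Pool.Agent.Helper70.ML.All

/-!
# Perfect central extensions of `PSL₂(F)` by groups of odd order, part 2: the commutator pairing
-/

set_option autoImplicit false
set_option linter.unusedSectionVars false

namespace Pool.Agent.Helper84.MXP

open Pool.Agent.Helper70.ML Pool.Agent.Helper75.MX

section poly

variable {F : Type} [Field F] [Finite F]

open Polynomial in
theorem exists_k (hF : 11 < Nat.card F) : ∃ k : F, k ≠ 0 ∧ k ^ 2 ≠ 1 ∧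
    (k ^ 2 - 1) ^ 4 + 4 * k ^ 2 * (k ^ 2 - 1) ^ 2 + 16 * k ^ 4 ≠ 0 := by
  have := Fintype.ofFinite F
  set f : F[X] := X * (X ^ 2 - 1) * ((X ^ 2 - 1) ^ 4 + C 4 * X ^ 2 * (X ^ 2 - 1) ^ 2 + C 16 * X ^ 4)
    with hf
  have hdeg : f.natDegree = 11 := by
    rw [hf]
    compute_degree!
  by_contra hall
  push Not at hall
  have hz : f = 0 := by
    apply Polynomial.eq_zero_of_natDegree_lt_card_of_eval_eq_zero f (f := (id : F → F))
      Function.injective_id
    · intro k
      rw [hf]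
      simp only [id, eval_mul, eval_add, eval_sub, eval_pow, eval_X, eval_one, eval_C]
      by_cases h0 : k = 0
      · rw [h0]; ring
      by_cases h1 : k ^ 2 = 1
      · rw [h1]; ring
      have := hall k h0 h1
      rw [this]
      ring
    · rw [hdeg, ← Nat.card_eq_fintype_card]
      exact hF
  rw [hz, natDegree_zero] at hdeg
  omega

/-- the parameters -/
theorem exists_ts (h : ¬ IsSquare (-1 : F)) (hF : 11 < Nat.card F) :
    ∃ t s : Fˣ, (s : F) ^ 2 = (t : F) ^ 2 + 1 ∧ (t : F) ^ 2 + ((t⁻¹ : Fˣ) : F) ^ 2 + 1 ≠ 0 := by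
  obtain ⟨k, hk0, hk1, hk2⟩ := exists_k hF
  have h2 := two_ne h
  have hk1' : k ^ 2 - 1 ≠ 0 := sub_ne_zero.2 hk1
  have hk3 : k ^ 2 + 1 ≠ 0 := by
    have := one_add_sq_ne h k
    rwa [add_comm] at this
  have h2k : 2 * k ≠ 0 := mul_ne_zero h2 hk0
  refine ⟨Units.mk0 ((k ^ 2 - 1) / (2 * k)) (div_ne_zero hk1' h2k),
    Units.mk0 ((k ^ 2 + 1) / (2 * k)) (div_ne_zero hk3 h2k), ?_, ?_⟩
  · simp only [Units.val_mk0]
    field_simp
    ring
  · simp only [Units.val_mk0, Units.val_inv_eq_inv_val]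
    intro h0
    apply hk2
    field_simp at h0
    linear_combination h0

end poly

/-- commutators -/
def cm {Q : Type} [Group Q] (x y : Q) : Q := x * y * x⁻¹ * y⁻¹

section pairing

variable {F : Type} [Field F] [Finite F] {Q : Type} [Group Q] [Finite Q]

theorem cm_indep {H : Type} [Group H] (ψ : Q →* H) (hker : ψ.ker ≤ Subgroup.center Q) {x x' y y' : Q}
    (hx : ψ x = ψ x') (hy : ψ y = ψ y') : cm x y = cm x' y' := by
  have h1 : x'⁻¹ * x ∈ Subgroup.center Q := hker (by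
    rw [MonoidHom.mem_ker, map_mul, map_inv, hx, inv_mul_cancel])
  have h2 : y'⁻¹ * y ∈ Subgroup.center Q := hker (by
    rw [MonoidHom.mem_ker, map_mul, map_inv, hy, inv_mul_cancel])
  obtain ⟨z, hz⟩ : ∃ z, z = x'⁻¹ * x := ⟨_, rfl⟩
  obtain ⟨w, hw⟩ : ∃ w, w = y'⁻¹ * y := ⟨_, rfl⟩
  rw [← hz] at h1
  rw [← hw] at h2
  have ex : x = x' * z := by rw [hz]; group
  have ey : y = y' * w := by rw [hw]; group
  have cz := Subgroup.mem_center_iff.1 h1
  have cw := Subgroup.mem_center_iff.1 h2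
  unfold cm
  rw [ex, ey, mul_inv_rev, mul_inv_rev]
  calc x' * z * (y' * w) * (z⁻¹ * x'⁻¹) * (w⁻¹ * y'⁻¹)
      = x' * (z * (y' * w)) * z⁻¹ * x'⁻¹ * w⁻¹ * y'⁻¹ := by group
    _ = x' * ((y' * w) * z) * z⁻¹ * x'⁻¹ * w⁻¹ * y'⁻¹ := by rw [cz (y' * w)]
    _ = x' * y' * (w * x'⁻¹) * w⁻¹ * y'⁻¹ := by group
    _ = x' * y' * (x'⁻¹ * w) * w⁻¹ * y'⁻¹ := by rw [cw x'⁻¹]
    _ = x' * y' * x'⁻¹ * y'⁻¹ := by group

/-- The preimage of the unipotent group is commutative if `-1` is not a square. -/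
theorem UU_comm_big (ψ : Q →* PS F) (hψ : Function.Surjective ψ)
    (hker : ψ.ker ≤ Subgroup.center Q) (h : ¬ IsSquare (-1 : F)) (hF : 11 < Nat.card F) :
    ∀ x ∈ UU ψ, ∀ y ∈ UU ψ, x * y = y * x := by
  obtain ⟨t, s, hts, he⟩ := exists_ts h hF
  choose u hu using fun a : F => hψ (pr F (uS a))
  have B : ∀ {x y : Q} {a b : F}, ψ x = pr F (uS a) → ψ y = pr F (uS b) →
      cm x y = cm (u a) (u b) := by
    intro x y a b hx hy
    exact cm_indep ψ hker (hx.trans (hu a).symm) (hy.trans (hu b).symm)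
  have hcen : ∀ a b : F, cm (u a) (u b) ∈ Subgroup.center Q := by
    intro a b
    apply hker
    rw [MonoidHom.mem_ker]
    unfold cm
    have : ψ (u a) * ψ (u b) = ψ (u b) * ψ (u a) := by
      rw [hu, hu, ← map_mul, ← map_mul, ← uS_add, ← uS_add, add_comm]
    rw [map_mul, map_mul, map_mul, map_inv, map_inv, this]
    group
  have F1 : ∀ a a' b : F, cm (u (a + a')) (u b) = cm (u a) (u b) * cm (u a') (u b) := by
    intro a a' b
    have h1 : ψ (u a * u a') = pr F (uS (a + a')) := by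
      rw [map_mul, hu, hu, ← map_mul, ← uS_add]
    rw [← B h1 (hu b)]
    have h2 := Subgroup.mem_center_iff.1 (hcen a' b)
    calc cm (u a * u a') (u b) = u a * cm (u a') (u b) * u b * (u a)⁻¹ * (u b)⁻¹ := by
          unfold cm; group
      _ = cm (u a') (u b) * u a * u b * (u a)⁻¹ * (u b)⁻¹ := by rw [h2 (u a)]
      _ = cm (u a') (u b) * cm (u a) (u b) := by unfold cm; group
      _ = cm (u a) (u b) * cm (u a') (u b) := by rw [h2]
  have F2 : ∀ a b b' : F, cm (u a) (u (b + b')) = cm (u a) (u b) * cm (u a) (u b') := by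
    intro a b b'
    have h1 : ψ (u b * u b') = pr F (uS (b + b')) := by
      rw [map_mul, hu, hu, ← map_mul, ← uS_add]
    rw [← B (hu a) h1]
    have h2 := Subgroup.mem_center_iff.1 (hcen a b')
    calc cm (u a) (u b * u b') = u a * u b * (u a)⁻¹ * cm (u a) (u b') * (u b)⁻¹ := by
          unfold cm; group
      _ = cm (u a) (u b') * (u a * u b * (u a)⁻¹) * (u b)⁻¹ := by
          rw [h2 (u a * u b * (u a)⁻¹)]
      _ = cm (u a) (u b') * cm (u a) (u b) := by unfold cm; group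
      _ = cm (u a) (u b) * cm (u a) (u b') := by rw [h2]
  have F3 : ∀ (r : Fˣ) (a b : F), cm (u ((r : F) ^ 2 * a)) (u ((r : F) ^ 2 * b)) =
      cm (u a) (u b) := by
    intro r a b
    obtain ⟨d, hd⟩ := hψ (pr F (dT r))
    have h1 : ∀ a : F, ψ (d * u a * d⁻¹) = pr F (uS ((r : F) ^ 2 * a)) := by
      intro a
      rw [map_mul, map_mul, map_inv, hd, hu, ← map_mul, ← map_inv, ← map_mul, dT_uS]
    rw [← B (h1 a) (h1 b)]
    have h2 := Subgroup.mem_center_iff.1 (hcen a b)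
    calc cm (d * u a * d⁻¹) (d * u b * d⁻¹) = d * cm (u a) (u b) * d⁻¹ := by unfold cm; group
      _ = cm (u a) (u b) * d * d⁻¹ := by rw [h2 d]
      _ = cm (u a) (u b) := by group
  have key : ∀ a b : F, cm (u (((t : F) ^ 2 + ((t⁻¹ : Fˣ) : F) ^ 2 + 1) * a)) (u b) = 1 := by
    intro a b
    have e1 : cm (u a) (u b) * (cm (u ((t : F) ^ 2 * a)) (u b) *
        (cm (u a) (u ((t : F) ^ 2 * b)) * cm (u a) (u b))) = cm (u a) (u b) := by
      calc cm (u a) (u b) * (cm (u ((t : F) ^ 2 * a)) (u b) *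
            (cm (u a) (u ((t : F) ^ 2 * b)) * cm (u a) (u b)))
          = (cm (u ((t : F) ^ 2 * a)) (u ((t : F) ^ 2 * b)) * cm (u ((t : F) ^ 2 * a)) (u b)) *
            (cm (u a) (u ((t : F) ^ 2 * b)) * cm (u a) (u b)) := by rw [F3 t a b]; group
        _ = cm (u ((t : F) ^ 2 * a + a)) (u ((t : F) ^ 2 * b + b)) := by
            rw [← F2, ← F2, ← F1]
        _ = cm (u ((s : F) ^ 2 * a)) (u ((s : F) ^ 2 * b)) := by
            rw [hts, add_mul, add_mul, one_mul, one_mul]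
        _ = cm (u a) (u b) := F3 s a b
    have e2 : cm (u ((t : F) ^ 2 * a)) (u b) *
        (cm (u a) (u ((t : F) ^ 2 * b)) * cm (u a) (u b)) = 1 := by
      have : cm (u a) (u b) * (cm (u ((t : F) ^ 2 * a)) (u b) *
        (cm (u a) (u ((t : F) ^ 2 * b)) * cm (u a) (u b))) = cm (u a) (u b) * 1 := by
        rw [e1, mul_one]
      exact mul_left_cancel this
    have e3 : cm (u a) (u ((t : F) ^ 2 * b)) = cm (u (((t⁻¹ : Fˣ) : F) ^ 2 * a)) (u b) := by
      have := F3 t (((t⁻¹ : Fˣ) : F) ^ 2 * a) b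
      rw [← this, ← mul_assoc, ← mul_pow, Units.mul_inv, one_pow, one_mul]
    rw [e3, ← F1, ← F1] at e2
    rw [← e2]
    congr 2
    ring
  intro x hx y hy
  obtain ⟨a, ha⟩ := (mem_UU ψ).1 hx
  obtain ⟨b, hb⟩ := (mem_UU ψ).1 hy
  have h1 : cm x y = 1 := by
    rw [B ha hb]
    have := key (((t : F) ^ 2 + ((t⁻¹ : Fˣ) : F) ^ 2 + 1)⁻¹ * a) b
    rwa [← mul_assoc, mul_inv_cancel₀ he, one_mul] at this
  unfold cm at h1
  calc x * y = (x * y * x⁻¹ * y⁻¹) * (y * x) := by group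
    _ = y * x := by rw [h1, one_mul]

/-- the same for prime fields -/
theorem UU_comm_prime (ψ : Q →* PS F) (hker : ψ.ker ≤ Subgroup.center Q)
    (hF : (Nat.card F).Prime) : ∀ x ∈ UU ψ, ∀ y ∈ UU ψ, x * y = y * x := by
  have : Fact (Nat.card F).Prime := ⟨hF⟩
  have h1 : IsCyclic (Multiplicative F) := isCyclic_of_prime_card (p := Nat.card F) rfl
  have h2 : IsCyclic ((uSh F).range) :=
    isCyclic_of_surjective (uSh F).rangeRestrict (uSh F).rangeRestrict_surjective
  have h3 : IsCyclic ((uSh F).range.map (pr F)) :=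
    isCyclic_of_surjective ((pr F).subgroupMap (uSh F).range)
      (MonoidHom.subgroupMap_surjective _ _)
  intro x hx y hy
  let f : UU ψ →* (uSh F).range.map (pr F) :=
    (ψ.comp (UU ψ).subtype).codRestrict _ (fun z => z.2)
  have h4 : f.ker ≤ Subgroup.center (UU ψ) := by
    intro a ha
    rw [Subgroup.mem_center_iff]
    intro b
    apply Subtype.ext
    have h5 : (a : Q) ∈ ψ.ker := by
      rw [MonoidHom.mem_ker] at ha ⊢
      exact congrArg Subtype.val ha
    exact Subgroup.mem_center_iff.1 (hker h5) b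
  have h6 := MonoidHom.isMulCommutative_of_isCyclic_of_ker_le_center f h4
  have h7 := h6.1.comm (⟨x, hx⟩ : UU ψ) ⟨y, hy⟩
  exact congrArg Subtype.val h7

theorem UU_comm (ψ : Q →* PS F) (hψ : Function.Surjective ψ)
    (hker : ψ.ker ≤ Subgroup.center Q) (h : ¬ IsSquare (-1 : F)) (hF : 3 < Nat.card F) :
    ∀ x ∈ UU ψ, ∀ y ∈ UU ψ, x * y = y * x := by
  by_cases h11 : 11 < Nat.card F
  · exact UU_comm_big ψ hψ hker h h11
  · apply UU_comm_prime ψ hker
    classical
    have := Fintype.ofFinite F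
    have h4 : Nat.card F % 4 = 3 := by
      by_contra h4
      apply h
      rw [FiniteField.isSquare_neg_one_iff, ← Nat.card_eq_fintype_card]
      exact h4
    obtain hc | hc : Nat.card F = 7 ∨ Nat.card F = 11 := by omega
    · rw [hc]; norm_num
    · rw [hc]; norm_num

/-- **Covers of `PSL₂(F)`** -/
theorem cov2 (hF : 3 < Nat.card F) (hp : commutator Q = ⊤)
    (ψ : Q →* PS F) (hψ : Function.Surjective ψ) (hker : ψ.ker ≤ Subgroup.center Q)
    (hodd : Odd (Nat.card ψ.ker)) : StepP Q ∨ ψ.ker = ⊥ := by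
  by_cases hS : StepP Q
  · exact Or.inl hS
  right
  -- no elements of prime order in the kernel
  have hno : ∀ (l : ℕ), l.Prime → ∀ z ∈ ψ.ker, z ^ l = 1 → z = 1 := by
    intro l hl z hz hzl
    by_cases hl2 : l = 2
    · subst hl2
      rw [pow_two] at hzl
      exact odd_sq hodd hz hzl
    by_cases hlF : (l : F) = 0
    · apply no_p hp ψ hψ _ hl hlF (hker hz) hzl
      by_cases hsq : IsSquare (-1 : F)
      · intro x hx y hy
        by_contra hne
        exact hS (stepP_of ψ hψ hker hodd hsq hl hl2 hlF hx hy hne)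
      · exact UU_comm ψ hψ hker hsq hF
    · exact no_l hp ψ hker hl hl2 hlF (hker hz) hzl
  by_contra hne
  have hc1 : Nat.card ψ.ker ≠ 1 := by
    intro h1
    exact hne (Subgroup.card_eq_one.1 h1)
  obtain ⟨l, hl, hld⟩ := Nat.exists_prime_and_dvd hc1
  have : Fact l.Prime := ⟨hl⟩
  obtain ⟨z, hz⟩ := exists_prime_orderOf_dvd_card' (G := ψ.ker) l hld
  have h1 : (z : Q) ^ l = 1 := by
    have := pow_orderOf_eq_one z
    rw [hz] at this
    exact congrArg Subtype.val this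
  have h2 := hno l hl z z.2 h1
  have h3 : z = 1 := Subtype.ext h2
  rw [h3, orderOf_one] at hz
  exact hl.one_lt.ne hz

end pairing

end Pool.Agent.Helper84.MXP
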