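import Pool.Agent.Helper84.MXP.Core

/-!
# Transfer; centralisers in `SL₂(F)` are cyclic; `ℓ`-subgroups of `PSL₂(F)` are cyclic
-/

set_option autoImplicit false
set_option linter.unusedSectionVars false

namespace Pool.Agent.Helper84.MXP

open Pool.Agent.Helper70.ML Pool.Agent.Helper75.MX

/-- **Transfer to a commutative subgroup**: central elements of a perfect group. -/
theorem tr_pow {Q : Type} [Group Q] [Finite Q] (hp : commutator Q = ⊤) (A : Subgroup Q)
    (hA : ∀ x ∈ A, ∀ y ∈ A, x * y = y * x) {z : Q} (hz : z ∈ Subgroup.center Q) :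
    z ^ A.index = 1 := by
  let _ : CommGroup A :=
    { (inferInstance : Group A) with mul_comm := fun a b => Subtype.ext (hA _ a.2 _ b.2) }
  have hzc := Subgroup.mem_center_iff.1 hz
  have key : ∀ (k : ℕ) (g₀ : Q), g₀⁻¹ * z ^ k * g₀ ∈ A → g₀⁻¹ * z ^ k * g₀ = z ^ k := by
    intro k g₀ _
    have h1 : z ^ k ∈ Subgroup.center Q := Subgroup.pow_mem _ hz k
    have h2 := Subgroup.mem_center_iff.1 h1 g₀⁻¹
    rw [h2]
    group
  have h2 := MonoidHom.transfer_eq_pow (MonoidHom.id A) z key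
  have h1 : (MonoidHom.transfer (MonoidHom.id A)) z = 1 := by
    have h3 : commutator Q ≤ (MonoidHom.transfer (MonoidHom.id A)).ker :=
      Abelianization.commutator_subset_ker _
    rw [hp] at h3
    exact h3 (Subgroup.mem_top z)
  rw [h1] at h2
  exact (congrArg Subtype.val h2).symm

variable {F : Type} [Field F]

/-- the trace -/
def tr (g : SLn 2 F) : F := g.1 0 0 + g.1 1 1

theorem nonscalar {g : SLn 2 F} (hg : tr g ^ 2 ≠ 4) :
    ¬ (g.1 0 1 = 0 ∧ g.1 1 0 = 0 ∧ g.1 0 0 = g.1 1 1) := by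
  rintro ⟨h1, h2, h3⟩
  apply hg
  have hd := det_ent g
  rw [h1, h2, h3] at hd
  unfold tr
  rw [h3]
  linear_combination 4 * hd

theorem exists_xy {g h : SLn 2 F} (hgh : h * g = g * h) (hg : tr g ^ 2 ≠ 4) :
    ∃ x y : F, (h.1 0 0 = x + y * g.1 0 0 ∧ h.1 0 1 = y * g.1 0 1) ∧
      (h.1 1 0 = y * g.1 1 0 ∧ h.1 1 1 = x + y * g.1 1 1) := by
  have e00 : (h * g).1 0 0 = (g * h).1 0 0 := by rw [hgh]
  have e01 : (h * g).1 0 1 = (g * h).1 0 1 := by rw [hgh]
  have e10 : (h * g).1 1 0 = (g * h).1 1 0 := by rw [hgh]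
  rw [mul_ent, mul_ent] at e00 e01 e10
  by_cases hb : g.1 0 1 = 0
  · by_cases hc : g.1 1 0 = 0
    · have hn := nonscalar hg
      have had : g.1 0 0 - g.1 1 1 ≠ 0 := fun h0 => hn ⟨hb, hc, by linear_combination h0⟩
      refine ⟨h.1 0 0 - (h.1 0 0 - h.1 1 1) / (g.1 0 0 - g.1 1 1) * g.1 0 0,
        (h.1 0 0 - h.1 1 1) / (g.1 0 0 - g.1 1 1), ⟨by ring, ?_⟩, ⟨?_, ?_⟩⟩
      · rw [hb] at e01 ⊢
        have : (g.1 0 0 - g.1 1 1) * h.1 0 1 = 0 := by linear_combination -e01
        rw [(mul_eq_zero.1 this).resolve_left had]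
        ring
      · rw [hc] at e10 ⊢
        have : (g.1 0 0 - g.1 1 1) * h.1 1 0 = 0 := by linear_combination e10
        rw [(mul_eq_zero.1 this).resolve_left had]
        ring
      · field_simp
        ring
    · refine ⟨h.1 0 0 - h.1 1 0 / g.1 1 0 * g.1 0 0, h.1 1 0 / g.1 1 0, ⟨by ring, ?_⟩, ⟨?_, ?_⟩⟩
      · field_simp
        linear_combination e00
      · field_simp
      · field_simp
        linear_combination e10
  · refine ⟨h.1 0 0 - h.1 0 1 / g.1 0 1 * g.1 0 0, h.1 0 1 / g.1 0 1, ⟨by ring, ?_⟩, ⟨?_, ?_⟩⟩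
    · field_simp
    · field_simp
      linear_combination -e00
    · field_simp
      linear_combination -e01

theorem uniq_xy {g : SLn 2 F} (hg : tr g ^ 2 ≠ 4) {x y x' y' : F}
    (h1 : x + y * g.1 0 0 = x' + y' * g.1 0 0) (h2 : y * g.1 0 1 = y' * g.1 0 1)
    (h3 : y * g.1 1 0 = y' * g.1 1 0) (h4 : x + y * g.1 1 1 = x' + y' * g.1 1 1) :
    x = x' ∧ y = y' := by
  have hy : y = y' := by
    by_contra hne
    have hd : y - y' ≠ 0 := sub_ne_zero.2 hne
    apply nonscalar hg
    refine ⟨?_, ?_, ?_⟩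
    · have : (y - y') * g.1 0 1 = 0 := by linear_combination h2
      exact (mul_eq_zero.1 this).resolve_left hd
    · have : (y - y') * g.1 1 0 = 0 := by linear_combination h3
      exact (mul_eq_zero.1 this).resolve_left hd
    · have : (y - y') * (g.1 0 0 - g.1 1 1) = 0 := by linear_combination h1 - h4
      exact sub_eq_zero.1 ((mul_eq_zero.1 this).resolve_left hd)
  subst hy
  exact ⟨by linear_combination h1, rfl⟩

/-- The centraliser of an element with `tr² ≠ 4` is cyclic. -/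
theorem cyc_cent [Finite F] {g : SLn 2 F} (hg : tr g ^ 2 ≠ 4) :
    IsCyclic (Subgroup.centralizer {g} : Subgroup (SLn 2 F)) := by
  classical
  let K := AlgebraicClosure F
  let i : F →+* K := algebraMap F K
  have hi : Function.Injective i := i.injective
  obtain ⟨l, hl⟩ : ∃ l : K, l ^ 2 = i (tr g) * l - 1 := by
    have hdeg : (Polynomial.X ^ 2 - Polynomial.C (i (tr g)) * Polynomial.X + 1 :
        Polynomial K).degree = 2 := by compute_degree!
    obtain ⟨l, hl⟩ := IsAlgClosed.exists_root (Polynomial.X ^ 2 - Polynomial.C (i (tr g)) *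
      Polynomial.X + 1 : Polynomial K) (by rw [hdeg]; norm_num)
    refine ⟨l, ?_⟩
    rw [Polynomial.IsRoot.def] at hl
    simp only [Polynomial.eval_add, Polynomial.eval_sub, Polynomial.eval_pow, Polynomial.eval_X,
      Polynomial.eval_mul, Polynomial.eval_C, Polynomial.eval_one] at hl
    linear_combination hl
  have hex : ∀ h : (Subgroup.centralizer {g} : Subgroup (SLn 2 F)), ∃ p : F × F,
      ((h : SLn 2 F).1 0 0 = p.1 + p.2 * g.1 0 0 ∧ (h : SLn 2 F).1 0 1 = p.2 * g.1 0 1) ∧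
      ((h : SLn 2 F).1 1 0 = p.2 * g.1 1 0 ∧ (h : SLn 2 F).1 1 1 = p.1 + p.2 * g.1 1 1) := by
    intro h
    have h1 := Subgroup.mem_centralizer_singleton_iff.1 h.2
    obtain ⟨x, y, hxy⟩ := exists_xy h1 hg
    exact ⟨(x, y), hxy⟩
  choose c hc using hex
  have hd := det_ent g
  have huniq : ∀ (h : (Subgroup.centralizer {g} : Subgroup (SLn 2 F))) (x y : F),
      (h : SLn 2 F).1 0 0 = x + y * g.1 0 0 → (h : SLn 2 F).1 0 1 = y * g.1 0 1 →
      (h : SLn 2 F).1 1 0 = y * g.1 1 0 → (h : SLn 2 F).1 1 1 = x + y * g.1 1 1 → c h = (x, y) := by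
    intro h x y h1 h2 h3 h4
    obtain ⟨⟨a1, a2⟩, ⟨a3, a4⟩⟩ := hc h
    obtain ⟨e1, e2⟩ := uniq_xy hg (a1.symm.trans h1) (a2.symm.trans h2) (a3.symm.trans h3)
      (a4.symm.trans h4)
    exact Prod.ext e1 e2
  let φ : (Subgroup.centralizer {g} : Subgroup (SLn 2 F)) →* K :=
    { toFun := fun h => i (c h).1 + i (c h).2 * l
      map_one' := by
        obtain ⟨⟨h1, h2⟩, ⟨h3, h4⟩⟩ := one_ent (F := F)
        have := huniq 1 1 0 (by rw [Subgroup.coe_one, h1]; ring) (by rw [Subgroup.coe_one, h2]; ring)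
          (by rw [Subgroup.coe_one, h3]; ring) (by rw [Subgroup.coe_one, h4]; ring)
        rw [this]
        simp
      map_mul' := by
        intro h h'
        obtain ⟨⟨a1, a2⟩, ⟨a3, a4⟩⟩ := hc h
        obtain ⟨⟨b1, b2⟩, ⟨b3, b4⟩⟩ := hc h'
        have := huniq (h * h') ((c h).1 * (c h').1 - (c h).2 * (c h').2)
          ((c h).1 * (c h').2 + (c h).2 * (c h').1 + tr g * (c h).2 * (c h').2)
          (by rw [Subgroup.coe_mul, mul_ent, a1, a2, b1, b3]; unfold tr
              linear_combination (c h).2 * (c h').2 * -hd)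
          (by rw [Subgroup.coe_mul, mul_ent, a1, a2, b2, b4]; unfold tr; ring)
          (by rw [Subgroup.coe_mul, mul_ent, a3, a4, b1, b3]; unfold tr; ring)
          (by rw [Subgroup.coe_mul, mul_ent, a3, a4, b2, b4]; unfold tr
              linear_combination (c h).2 * (c h').2 * -hd)
        rw [this]
        simp only [map_sub, map_mul, map_add]
        linear_combination -(i (c h).2 * i (c h').2) * hl }
  have hφ : Function.Injective φ := by
    rw [injective_iff_map_eq_one]
    intro h hh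
    change i (c h).1 + i (c h).2 * l = 1 at hh
    obtain ⟨⟨a1, a2⟩, ⟨a3, a4⟩⟩ := hc h
    have hdh := det_ent (h : SLn 2 F)
    rw [a1, a2, a3, a4] at hdh
    have hn : (c h).1 ^ 2 + tr g * (c h).1 * (c h).2 + (c h).2 ^ 2 = 1 := by
      unfold tr
      linear_combination hdh - (c h).2 ^ 2 * hd
    have hn' : i (c h).1 ^ 2 + i (tr g) * i (c h).1 * i (c h).2 + i (c h).2 ^ 2 = 1 := by
      rw [← map_pow, ← map_pow, ← map_mul, ← map_mul, ← map_add, ← map_add, hn, map_one]
    have h2 : i (c h).1 + i (c h).2 * (i (tr g) - l) = 1 := by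
      have : (i (c h).1 + i (c h).2 * l) * (i (c h).1 + i (c h).2 * (i (tr g) - l)) = 1 := by
        rw [← hn']
        linear_combination -(i (c h).2 ^ 2) * hl
      rwa [hh, one_mul] at this
    have h3 : i (c h).2 * (2 * l - i (tr g)) = 0 := by linear_combination hh - h2
    have h4 : 2 * l - i (tr g) ≠ 0 := by
      intro h0
      have h5 : i (tr g) ^ 2 = 4 := by
        have h6 : (2 * l - i (tr g)) ^ 2 = i (tr g) ^ 2 - 4 := by linear_combination 4 * hl
        rw [h0] at h6
        linear_combination -h6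
      apply hg
      apply hi
      rw [map_pow, h5]
      exact (map_ofNat i 4).symm
    have hy : (c h).2 = 0 := by
      apply hi
      rw [map_zero]
      exact (mul_eq_zero.1 h3).resolve_right h4
    have hx : (c h).1 = 1 := by
      apply hi
      rw [map_one]
      rw [hy, map_zero, zero_mul, add_zero] at hh
      exact hh
    obtain ⟨⟨h1, h2⟩, ⟨h3, h4⟩⟩ := one_ent (F := F)
    apply Subtype.ext
    rw [Subgroup.coe_one]
    apply sl_ext
    · rw [a1, hx, hy, h1]; ring
    · rw [a2, hy, h2]; ring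
    · rw [a3, hy, h3]; ring
    · rw [a4, hx, hy, h4]; ring
  exact isCyclic_of_injective_ringHom φ hφ

/-- If `tr² = 4` then `g ^ (2 p) = 1`. -/
theorem pow_of_tr {g : SLn 2 F} (hg : tr g ^ 2 = 4) {p : ℕ} (hp : (p : F) = 0) :
    g ^ (2 * p) = 1 := by
  have hd := det_ent g
  have hu : ∀ k : ℕ, ((g * g) ^ k).1 0 0 = 1 + k * ((g * g).1 0 0 - 1) ∧
      ((g * g) ^ k).1 0 1 = k * (g * g).1 0 1 ∧ ((g * g) ^ k).1 1 0 = k * (g * g).1 1 0 ∧
      ((g * g) ^ k).1 1 1 = 1 + k * ((g * g).1 1 1 - 1) := by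
    have ht : (g * g).1 0 0 + (g * g).1 1 1 = 2 := by
      rw [mul_ent, mul_ent]
      unfold tr at hg
      linear_combination hg - 2 * hd
    have hdu := det_ent (g * g)
    intro k
    induction k with
    | zero =>
      obtain ⟨⟨h1, h2⟩, ⟨h3, h4⟩⟩ := one_ent (F := F)
      rw [pow_zero, h1, h2, h3, h4]
      simp
    | succ k ih =>
      obtain ⟨h1, h2, h3, h4⟩ := ih
      rw [pow_succ, mul_ent ((g * g) ^ k), mul_ent ((g * g) ^ k), mul_ent ((g * g) ^ k),
        mul_ent ((g * g) ^ k), h1, h2, h3, h4]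
      push_cast
      generalize (g * g).1 0 0 = a at ht hdu ⊢
      generalize (g * g).1 0 1 = b at ht hdu ⊢
      generalize (g * g).1 1 0 = c at ht hdu ⊢
      generalize (g * g).1 1 1 = d at ht hdu ⊢
      have hd' : d = 2 - a := by linear_combination ht
      subst hd'
      refine ⟨?_, ?_, ?_, ?_⟩
      · linear_combination -(k : F) * hdu
      · ring
      · ring
      · linear_combination -(k : F) * hdu
  rw [pow_mul, pow_two]
  obtain ⟨h1, h2, h3, h4⟩ := hu p
  obtain ⟨⟨a1, a2⟩, ⟨a3, a4⟩⟩ := one_ent (F := F)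
  apply sl_ext
  · rw [h1, a1, hp]; ring
  · rw [h2, a2, hp]; ring
  · rw [h3, a3, hp]; ring
  · rw [h4, a4, hp]; ring

theorem center_sq {c : SLn 2 F} (hc : c ∈ Subgroup.center (SLn 2 F)) : c * c = 1 := by
  obtain ⟨r, hr, hrc⟩ := Matrix.SpecialLinearGroup.mem_center_iff.1 hc
  rw [Fintype.card_fin] at hr
  obtain ⟨⟨a1, a2⟩, ⟨a3, a4⟩⟩ := one_ent (F := F)
  have e00 : c.1 0 0 = r := by rw [← hrc]; simp
  have e01 : c.1 0 1 = 0 := by rw [← hrc]; simp
  have e10 : c.1 1 0 = 0 := by rw [← hrc]; simp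
  have e11 : c.1 1 1 = r := by rw [← hrc]; simp
  apply sl_ext <;> rw [mul_ent]
  · rw [e00, e01, e10, a1]; linear_combination hr
  · rw [e00, e01, e11, a2]; ring
  · rw [e00, e10, e11, a3]; ring
  · rw [e01, e10, e11, a4]; linear_combination hr

/-- `ℓ`-subgroups of `PSL₂(F)` are cyclic if `ℓ` is an odd prime different from the characteristic. -/
theorem pgroup_cyc [Finite F] {l : ℕ} [Fact l.Prime] (hl2 : l ≠ 2) (hlF : (l : F) ≠ 0)
    (P : Subgroup (SLn 2 F ⧸ Subgroup.center (SLn 2 F))) (hP : IsPGroup l P) : IsCyclic P := by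
  classical
  have hlodd : Odd l := (Fact.out : l.Prime).odd_of_ne_two hl2
  rcases subsingleton_or_nontrivial P with hs | hs
  · exact isCyclic_of_subsingleton
  have hcn := hP.center_nontrivial
  obtain ⟨⟨g0, hg0c⟩, hg01⟩ := exists_ne (1 : Subgroup.center P)
  have hg0ne : (g0 : SLn 2 F ⧸ Subgroup.center (SLn 2 F)) ≠ 1 := by
    intro h
    apply hg01
    apply Subtype.ext
    exact Subtype.ext h
  obtain ⟨g, hg⟩ := QuotientGroup.mk'_surjective (Subgroup.center (SLn 2 F)) (g0 : _)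
  -- trace condition
  obtain ⟨p, hp⟩ := CharP.exists F
  have hpp : p.Prime := CharP.char_is_prime F p
  have htr : tr g ^ 2 ≠ 4 := by
    intro h
    have h1 := pow_of_tr h (CharP.cast_eq_zero F p)
    have h2 : (g0 : SLn 2 F ⧸ Subgroup.center (SLn 2 F)) ^ (2 * p) = 1 := by
      rw [← hg, ← map_pow, h1, map_one]
    obtain ⟨k, hk⟩ := hP g0
    have h3 : (g0 : SLn 2 F ⧸ Subgroup.center (SLn 2 F)) ^ (l ^ k) = 1 := by
      have := congrArg Subtype.val hk
      simpa using this
    have hcop : Nat.Coprime (2 * p) (l ^ k) := by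
      apply Nat.Coprime.pow_right
      apply Nat.Coprime.mul_left
      · exact (Nat.coprime_primes Nat.prime_two Fact.out).2 (Ne.symm hl2)
      · rw [Nat.coprime_primes hpp Fact.out]
        rintro rfl
        exact hlF (CharP.cast_eq_zero F p)
    apply hg0ne
    have h4 : orderOf (g0 : SLn 2 F ⧸ Subgroup.center (SLn 2 F)) ∣ 1 := by
      rw [← hcop]
      exact Nat.dvd_gcd (orderOf_dvd_of_pow_eq_one h2) (orderOf_dvd_of_pow_eq_one h3)
    exact orderOf_eq_one_iff.1 (Nat.dvd_one.1 h4)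
  have hcyc := cyc_cent htr
  -- P is contained in the image of the centraliser
  set A : Subgroup (SLn 2 F) := Subgroup.centralizer {g} with hA
  have hle : P ≤ A.map (QuotientGroup.mk' (Subgroup.center (SLn 2 F))) := by
    intro x hx
    obtain ⟨k, hk⟩ := hP ⟨x, hx⟩
    have hk' : x ^ (l ^ k) = 1 := by
      have := congrArg Subtype.val hk
      simpa using this
    obtain ⟨m, hm⟩ : Odd (l ^ k) := hlodd.pow
    have hy : (x ^ (m + 1)) * (x ^ (m + 1)) = x := by
      rw [← pow_add, show m + 1 + (m + 1) = l ^ k + 1 by omega, pow_succ, hk', one_mul]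
    have hyP : x ^ (m + 1) ∈ P := P.pow_mem hx _
    obtain ⟨y, hy2⟩ := QuotientGroup.mk'_surjective (Subgroup.center (SLn 2 F)) (x ^ (m + 1))
    have hcomm : y * g * y⁻¹ * g⁻¹ ∈ Subgroup.center (SLn 2 F) := by
      rw [← QuotientGroup.ker_mk' (Subgroup.center (SLn 2 F)), MonoidHom.mem_ker, map_mul, map_mul,
        map_mul, map_inv, map_inv, hy2, hg]
      have h5 := Subgroup.mem_center_iff.1 hg0c ⟨x ^ (m + 1), hyP⟩
      have h6 : x ^ (m + 1) * (g0 : SLn 2 F ⧸ Subgroup.center (SLn 2 F)) = g0 * x ^ (m + 1) := by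
        have := congrArg Subtype.val h5
        simpa using this
      rw [h6]
      group
    obtain ⟨c, hc⟩ : ∃ c, c = y * g * y⁻¹ * g⁻¹ := ⟨_, rfl⟩
    rw [← hc] at hcomm
    have hcc := center_sq hcomm
    have hcz := Subgroup.mem_center_iff.1 hcomm
    have e1 : y * g * y⁻¹ = c * g := by rw [hc]; group
    have e2 : (y * y) * g = g * (y * y) := by
      have : y * y * g * (y * y)⁻¹ = g := by
        calc y * y * g * (y * y)⁻¹ = y * (y * g * y⁻¹) * y⁻¹ := by group
          _ = y * c * g * y⁻¹ := by rw [e1]; group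
          _ = c * (y * g * y⁻¹) := by rw [hcz y]; group
          _ = (c * c) * g := by rw [e1]; group
          _ = g := by rw [hcc, one_mul]
      calc (y * y) * g = (y * y * g * (y * y)⁻¹) * (y * y) := by group
        _ = g * (y * y) := by rw [this]
    refine ⟨y * y, Subgroup.mem_centralizer_singleton_iff.2 e2, ?_⟩
    rw [map_mul, hy2, hy]
  have hc2 : IsCyclic (A.map (QuotientGroup.mk' (Subgroup.center (SLn 2 F)))) := by
    have : IsCyclic A := hcyc
    exact isCyclic_of_surjective ((QuotientGroup.mk' (Subgroup.center (SLn 2 F))).subgroupMap A)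
      (MonoidHom.subgroupMap_surjective _ _)
  exact isCyclic_of_injective (Subgroup.inclusion hle) (Subgroup.inclusion_injective hle)

end Pool.Agent.Helper84.MXP
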