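import Pool.Agent.Helper70.ML.St2

/-!
# Generalised dihedral subgroups with the sharp weight (after `Helper48/ML/M_DIH.lean`)
-/

set_option autoImplicit false

namespace Pool.Agent.Helper84.MXP

open Pool.Agent.Helper70.ML Pool.Agent.Helper75.MX

theorem dihWt (G : Type) [Group G] [Finite G] (A : Subgroup G) (w : G)
    (hcomm : ∀ x ∈ A, ∀ y ∈ A, x * y = y * x) (hwA : w ∉ A) (hww : w * w ∈ A) (hw4 : w ^ 4 = 1)
    (hinv : ∀ t ∈ A, w * t * w⁻¹ = t⁻¹) :
    ∃ (K : Subgroup G) (k : ℕ), (∀ g, g ∈ K ↔ g ∈ A ∨ ∃ t ∈ A, g = t * w) ∧ Mix K k ∧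
      Nat.card K = 2 * Nat.card A ∧ 2 ^ k ≤ wt (Nat.card K) := by
  classical
  have hinv' : ∀ t ∈ A, w * t = t⁻¹ * w := by
    intro t ht
    have := hinv t ht
    rw [← this]
    group
  have hinv2 : ∀ t ∈ A, w⁻¹ * t⁻¹ = t * w⁻¹ := by
    intro t ht
    calc w⁻¹ * t⁻¹ = w⁻¹ * (t⁻¹ * w) * w⁻¹ := by group
      _ = w⁻¹ * (w * t) * w⁻¹ := by rw [hinv' t ht]
      _ = t * w⁻¹ := by group
  -- the group
  let K : Subgroup G :=
    { carrier := {g | g ∈ A ∨ ∃ t ∈ A, g = t * w}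
      one_mem' := Or.inl A.one_mem
      mul_mem' := by
        rintro a b (ha | ⟨t, ht, rfl⟩) (hb | ⟨s, hs, rfl⟩)
        · exact Or.inl (A.mul_mem ha hb)
        · exact Or.inr ⟨a * s, A.mul_mem ha hs, by group⟩
        · refine Or.inr ⟨t * b⁻¹, A.mul_mem ht (A.inv_mem hb), ?_⟩
          rw [mul_assoc, hinv' b hb, mul_assoc]
        · refine Or.inl ?_
          have e : t * w * (s * w) = t * s⁻¹ * (w * w) := by
            rw [mul_assoc, ← mul_assoc w s w, hinv' s hs]
            group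
          rw [e]
          exact A.mul_mem (A.mul_mem ht (A.inv_mem hs)) hww
      inv_mem' := by
        rintro a (ha | ⟨t, ht, rfl⟩)
        · exact Or.inl (A.inv_mem ha)
        · refine Or.inr ⟨t * (w * w)⁻¹, A.mul_mem ht (A.inv_mem hww), ?_⟩
          rw [mul_inv_rev, hinv2 t ht]
          group }
  have hK : ∀ g, g ∈ K ↔ g ∈ A ∨ ∃ t ∈ A, g = t * w := fun g => Iff.rfl
  have hAK : ∀ {g}, g ∈ A → g ∈ K := fun h => Or.inl h
  have hwK : w ∈ K := Or.inr ⟨1, A.one_mem, by rw [one_mul]⟩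
  let w' : K := ⟨w, hwK⟩
  -- order
  have hcard : Nat.card K = 2 * Nat.card A := by
    have hs : Function.Bijective (fun x : A ⊕ A => (match x with
        | Sum.inl a => (⟨a.1, hAK a.2⟩ : K)
        | Sum.inr t => (⟨t.1 * w, Or.inr ⟨t.1, t.2, rfl⟩⟩ : K))) := by
      constructor
      · rintro (⟨a, ha⟩ | ⟨a, ha⟩) (⟨b, hb⟩ | ⟨b, hb⟩) h
        · have h' : a = b := congrArg Subtype.val h
          subst h'; rfl
        · exfalso
          have h' : a = b * w := congrArg Subtype.val h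
          apply hwA
          have : w = b⁻¹ * a := by rw [h']; group
          rw [this]; exact A.mul_mem (A.inv_mem hb) ha
        · exfalso
          have h' : a * w = b := congrArg Subtype.val h
          apply hwA
          have : w = a⁻¹ * b := by rw [← h']; group
          rw [this]; exact A.mul_mem (A.inv_mem ha) hb
        · have h' : a * w = b * w := congrArg Subtype.val h
          have h2 : a = b := mul_right_cancel h'
          subst h2; rfl
      · rintro ⟨g, hg | ⟨t, ht, rfl⟩⟩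
        · exact ⟨Sum.inl ⟨g, hg⟩, rfl⟩
        · exact ⟨Sum.inr ⟨t, ht⟩, rfl⟩
    have := Nat.card_congr (Equiv.ofBijective _ hs)
    rw [Nat.card_sum] at this
    omega
  -- solvable
  let B : Subgroup K := A.subgroupOf K
  have hBn : B.Normal := by
    refine ⟨?_⟩
    rintro ⟨b, hbK⟩ hb ⟨g, hg⟩
    have hbA : b ∈ A := hb
    show g * b * g⁻¹ ∈ A
    rcases hg with hg | ⟨t, ht, rfl⟩
    · exact A.mul_mem (A.mul_mem hg hbA) (A.inv_mem hg)
    · have e : t * w * b * (t * w)⁻¹ = t * (w * b * w⁻¹) * t⁻¹ := by group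
      rw [e, hinv b hbA]
      exact A.mul_mem (A.mul_mem ht (A.inv_mem hbA)) (A.inv_mem ht)
  have hBs : Group.IsSolvable B := by
    apply Group.isSolvable_of_comm
    rintro ⟨⟨a, ha1⟩, ha⟩ ⟨⟨b, hb1⟩, hb⟩
    apply Subtype.ext
    apply Subtype.ext
    exact hcomm a ha b hb
  have hq : ∀ x : K ⧸ B, x = 1 ∨ x = QuotientGroup.mk' B w' := by
    intro x
    obtain ⟨⟨g, hg⟩, rfl⟩ := QuotientGroup.mk'_surjective B x
    rcases hg with hg' | ⟨t, ht, rfl⟩
    · left
      exact (QuotientGroup.eq_one_iff _).2 hg'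
    · right
      have e : (⟨t * w, K.mul_mem (hAK ht) hwK⟩ : K) = ⟨t, hAK ht⟩ * w' := rfl
      have e2 : QuotientGroup.mk' B ⟨t, hAK ht⟩ = 1 := (QuotientGroup.eq_one_iff _).2 ht
      rw [e, map_mul, e2, one_mul]
  have hQs : Group.IsSolvable (K ⧸ B) := by
    apply Group.isSolvable_of_comm
    intro a b
    rcases hq a with rfl | rfl <;> rcases hq b with rfl | rfl <;> simp
  have hKs : Group.IsSolvable K :=
    Group.isSolvable_of_ker_le_range B.subtype (QuotientGroup.mk' B) (by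
      rw [QuotientGroup.ker_mk', Subgroup.range_subtype])
  -- no odd quotient
  have hTS : TS K := by
    intro N hN hodd
    have hodd' : Odd (Nat.card (K ⧸ N)) := hodd
    have hwN : QuotientGroup.mk' N w' = 1 := by
      apply odd_trivial hodd' (j := 2)
      rw [← map_pow]
      have : w' ^ (2 ^ 2) = 1 := Subtype.ext hw4
      rw [this, map_one]
    have hAN : ∀ t (ht : t ∈ A), QuotientGroup.mk' N (⟨t, hAK ht⟩ : K) = 1 := by
      intro t ht
      apply odd_trivial hodd' (j := 1)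
      have e : (⟨t, hAK ht⟩ : K) ^ 2 ^ 1 = ⟨t, hAK ht⟩ * w' * ⟨t, hAK ht⟩⁻¹ * w'⁻¹ := by
        apply Subtype.ext
        show t ^ 2 ^ 1 = t * w * t⁻¹ * w⁻¹
        rw [pow_one, pow_two]
        have := hinv t⁻¹ (A.inv_mem ht)
        rw [inv_inv] at this
        calc t * t = t * (w * t⁻¹ * w⁻¹) := by rw [this]
          _ = t * w * t⁻¹ * w⁻¹ := by group
      rw [← map_pow, e, map_mul, map_mul, map_mul, map_inv, map_inv, hwN]
      group
    rw [eq_top_iff]
    rintro ⟨g, hg⟩ -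
    rw [← QuotientGroup.eq_one_iff]
    show QuotientGroup.mk' N ⟨g, hg⟩ = 1
    rcases hg with hg' | ⟨t, ht, rfl⟩
    · exact hAN g hg'
    · have e : (⟨t * w, K.mul_mem (hAK ht) hwK⟩ : K) = ⟨t, hAK ht⟩ * w' := rfl
      rw [e, map_mul, hwN, hAN t ht, one_mul]
  obtain ⟨k, hk, hk2⟩ := main _ K rfl hKs hTS
  exact ⟨K, k, hK, hk, hcard, hk2⟩

end Pool.Agent.Helper84.MXP
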