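import Pool.Agent.Helper84.MXP.Cov2

/-!
# Quasisimple groups with odd centre and central quotient `PSL₂(F)`; assembly
-/

set_option autoImplicit false
set_option linter.unusedSectionVars false

namespace Pool.Agent.Helper84.MXP

open Pool.Agent.Helper70.ML Pool.Agent.Helper75.MX Pool.Agent.Helper75.ML
open scoped commutatorElement

/-- one step of the induction -/
theorem good_step {Q : Type} [Group Q] [Finite Q] (M : Subgroup Q) [M.Normal]
    (hg : Good 6 (Q ⧸ M)) {m : ℕ} (hm : 2 ^ m ≤ Nat.card M ^ 6)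
    (hF : ∀ F : Q → ℝ, ∃ F' : Q → ℝ, Reach m F F' ∧ M ≤ stab F') : Good 6 Q := by
  obtain ⟨k1, hk1, hb1⟩ := hg
  obtain ⟨F, _, hF2⟩ := mix_stage M hk1
  obtain ⟨F', hr, hs⟩ := hF F
  refine ⟨k1 + m, hF2 _ F' hr hs, ?_⟩
  have h1 := log_of_pow (Nat.card_pos (α := M)) hm
  rw [logb_card_quot M]
  push_cast
  linarith

theorem good_triv {Q : Type} [Group Q] [Finite Q] (h : Subsingleton Q) : Good 6 Q := by
  refine ⟨0, ?_, ?_⟩
  · have : dlt Q = uni Q := by
      funext x
      simp [dlt, uni, Subsingleton.elim x 1]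
    unfold Mix
    rw [this]
    exact Reach.refl _
  · have := logb_card_nonneg Q
    push_cast
    linarith

theorem comm_quot {Q : Type} [Group Q] (hp : commutator Q = ⊤) (M : Subgroup Q) [M.Normal] :
    commutator (Q ⧸ M) = ⊤ := by
  rw [commutator_def] at hp ⊢
  have h1 : (⊤ : Subgroup Q).map (QuotientGroup.mk' M) = ⊤ :=
    Subgroup.map_top_of_surjective _ (QuotientGroup.mk'_surjective M)
  have h2 := Subgroup.map_commutator (⊤ : Subgroup Q) ⊤ (QuotientGroup.mk' M)
  rw [h1, hp, h1] at h2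
  exact h2.symm

/-- `Good` from mixability and the bound -/
theorem good_of {G : Type} [Group G] {C : ℝ} (h : Mixable G)
    (hb : (mixlen G : ℝ) ≤ C * Real.logb 2 (Nat.card G)) : Good C G := by
  obtain ⟨k, hk⟩ := h
  have h4 : IsMixing G (mixlen G) := Nat.sInf_mem (s := {k | IsMixing G k}) ⟨k, hk⟩
  obtain ⟨l, hl, ho, he⟩ := isMixing_iff.1 h4
  exact ⟨mixlen G, ⟨l, hl.le, ho, he⟩, hb⟩

/-- **Induction scheme for central extensions** of a simple group by groups of odd order. -/
theorem good_ind {S : Type} [Group S] [Finite S] (hS : IsSimpleGroup S)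
    (hcov : ∀ (Q : Type) [Group Q] [Finite Q], commutator Q = ⊤ → ∀ ψ : Q →* S,
      Function.Surjective ψ → ψ.ker ≤ Subgroup.center Q → Odd (Nat.card ψ.ker) →
      StepP Q ∨ Good 6 Q) :
    ∀ (n : ℕ) (Q : Type) [Group Q] [Finite Q], Nat.card Q = n → commutator Q = ⊤ → ∀ ψ : Q →* S,
      Function.Surjective ψ → ψ.ker ≤ Subgroup.center Q → Odd (Nat.card ψ.ker) → Good 6 Q := by
  intro n
  induction n using Nat.strong_induction_on with
  | _ n ih =>
  intro Q _ _ hn hp ψ hψ hker hodd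
  rcases hcov Q hp ψ hψ hker hodd with hS' | hK
  · obtain ⟨M, hMn, hMne, m, hm, hF2⟩ := hS'
    apply good_step M _ hm hF2
    by_cases hMK : M ≤ ψ.ker
    · have hM1 : 1 < Nat.card M := by
        rw [Subgroup.one_lt_card_iff_ne_bot]; exact hMne
      have hc := card_quot M
      have hQ1 : 0 < Nat.card (Q ⧸ M) := Nat.card_pos
      have hkl : (QuotientGroup.lift M ψ hMK).ker = ψ.ker.map (QuotientGroup.mk' M) :=
        QuotientGroup.ker_lift M ψ hMK
      apply ih (Nat.card (Q ⧸ M)) (by rw [← hn, hc]; nlinarith) (Q ⧸ M) rfl (comm_quot hp M)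
        (QuotientGroup.lift M ψ hMK)
      · exact QuotientGroup.lift_surjective_of_surjective M ψ hψ hMK
      · rw [hkl]
        rintro _ ⟨z, hz, rfl⟩
        rw [Subgroup.mem_center_iff]
        intro g
        obtain ⟨y, rfl⟩ := QuotientGroup.mk'_surjective M g
        rw [← map_mul, ← map_mul, Subgroup.mem_center_iff.1 (hker hz) y]
      · rw [hkl]
        exact hodd.of_dvd_nat (Subgroup.card_map_dvd _ _)
    · have hMT : M = ⊤ := by
        have h1 : (M.map ψ).Normal := hMn.map ψ hψ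
        have h2 : M.map ψ = ⊤ := by
          rcases h1.eq_bot_or_eq_top with h3 | h3
          · exfalso
            apply hMK
            rwa [Subgroup.map_eq_bot_iff] at h3
          · exact h3
        rw [eq_top_iff, ← hp, commutator_def, Subgroup.commutator_le]
        intro x _ y _
        have h3 : ψ x ∈ M.map ψ := by rw [h2]; trivial
        obtain ⟨a, ha, hax⟩ := h3
        have h4 : a⁻¹ * x ∈ Subgroup.center Q := hker (by
          rw [MonoidHom.mem_ker, map_mul, map_inv, hax, inv_mul_cancel])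
        obtain ⟨z, hz⟩ : ∃ z, z = a⁻¹ * x := ⟨_, rfl⟩
        rw [← hz] at h4
        have hx : x = a * z := by rw [hz]; group
        have hzc := Subgroup.mem_center_iff.1 h4
        have h5 : ⁅x, y⁆ = a * (y * a⁻¹ * y⁻¹) := by
          rw [commutatorElement_def, hx, mul_inv_rev]
          calc a * z * y * (z⁻¹ * a⁻¹) * y⁻¹ = a * (z * y) * z⁻¹ * a⁻¹ * y⁻¹ := by group
            _ = a * (y * z) * z⁻¹ * a⁻¹ * y⁻¹ := by rw [hzc y]
            _ = a * (y * a⁻¹ * y⁻¹) := by group
        rw [h5]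
        exact M.mul_mem ha (hMn.conj_mem _ (M.inv_mem ha) y)
      apply good_triv
      rw [hMT]
      exact QuotientGroup.subsingleton_quotient_top
  · exact hK

/-- **Quasisimple groups with odd centre and central quotient `PSL₂(F)`** -/
theorem good_psl2 {F : Type} [Field F] [Finite F] (hF : 3 < Nat.card F) (Q : Type) [Group Q]
    [Finite Q] (hQ : QO Q) (he : Nonempty ((Q ⧸ Subgroup.center Q) ≃* PS F)) : Good 6 Q := by
  obtain ⟨e⟩ := he
  obtain ⟨hp, hsim, hodd⟩ := hQ
  have hS : IsSimpleGroup (PS F) := (MulEquiv.isSimpleGroup_congr e).1 hsim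
  have hgS : Good 6 (PS F) := by
    obtain ⟨h1, h2⟩ := slAll 2 F le_rfl (by omega) (Subgroup.center (SLn 2 F)) le_rfl
    exact good_of h1 h2
  set ψ : Q →* PS F := e.toMonoidHom.comp (QuotientGroup.mk' (Subgroup.center Q)) with hψdef
  have hψ : Function.Surjective ψ := e.surjective.comp (QuotientGroup.mk'_surjective _)
  have hker : ψ.ker = Subgroup.center Q := by
    ext x
    rw [MonoidHom.mem_ker, hψdef, MonoidHom.comp_apply]
    constructor
    · intro h
      have h1 : QuotientGroup.mk' (Subgroup.center Q) x = 1 := by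
        apply e.injective
        rw [map_one]
        exact h
      rwa [← MonoidHom.mem_ker, QuotientGroup.ker_mk'] at h1
    · intro h
      rw [← QuotientGroup.ker_mk' (Subgroup.center Q), MonoidHom.mem_ker] at h
      rw [h, map_one]
  refine good_ind hS ?_ _ Q rfl hp ψ hψ hker.le (by rw [hker]; exact hodd)
  intro Q _ _ hp ψ hψ hker hodd
  rcases cov2 hF hp ψ hψ hker hodd with h | h
  · exact Or.inl h
  · right
    have hinj : Function.Injective ψ := (MonoidHom.ker_eq_bot_iff ψ).1 h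
    let e' : Q ≃* PS F := MulEquiv.ofBijective ψ ⟨hinj, hψ⟩
    exact (pISO _ _ ⟨e'.symm⟩).2.1 6 hgS

/-- **Assembly**: from a class of quasisimple groups to all finite groups. -/
theorem fin_gen (K : (S : Type) → [Group S] → Prop)
    (hK : ∀ (Q : Type) [Group Q] [Finite Q], QO Q → ∀ (S : Type) [Group S], K S →
      Nonempty (S ≃* (Q ⧸ Subgroup.center Q)) → Good 6 Q)
    (G : Type) [Group G] [Finite G]
    (h : ∀ H : Subgroup G, H.IsSubnormal → ∀ (N : Subgroup H) [N.Normal], IsSimpleGroup (H ⧸ N) →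
      (∃ x y : H ⧸ N, x * y ≠ y * x) →
      (∃ m : ℕ, 5 ≤ m ∧ Nonempty ((H ⧸ N) ≃* alternatingGroup (Fin m))) ∨ K (H ⧸ N)) :
    (Mixable G ↔ ∀ N : Subgroup G, N.Normal → Odd N.index → N = ⊤) ∧
      (Mixable G → (mixlen G : ℝ) ≤ 6 * Real.logb 2 (Nat.card G)) := by
  apply pFIN 6 le_rfl G
  intro H hH N hN hp hsim hodd halt
  let f : H →* ((H ⧸ N) ⧸ Subgroup.center (H ⧸ N)) :=
    (QuotientGroup.mk' (Subgroup.center (H ⧸ N))).comp (QuotientGroup.mk' N)
  have hf : Function.Surjective f :=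
    (QuotientGroup.mk'_surjective _).comp (QuotientGroup.mk'_surjective _)
  let e : (H ⧸ f.ker) ≃* ((H ⧸ N) ⧸ Subgroup.center (H ⧸ N)) :=
    QuotientGroup.quotientKerEquivOfSurjective f hf
  have hsim' : IsSimpleGroup (H ⧸ f.ker) := (MulEquiv.isSimpleGroup_congr e).2 hsim
  have hnc : ∃ x y : H ⧸ f.ker, x * y ≠ y * x := by
    by_contra hall
    push Not at hall
    have h1 : ∀ x y : (H ⧸ N) ⧸ Subgroup.center (H ⧸ N), x * y = y * x := by
      intro x y
      have := hall (e.symm x) (e.symm y)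
      rw [← map_mul, ← map_mul] at this
      exact e.symm.injective this
    have h2 : commutator (H ⧸ N) ≤ Subgroup.center (H ⧸ N) := by
      rw [commutator_def, Subgroup.commutator_le]
      intro x _ y _
      rw [← QuotientGroup.ker_mk' (Subgroup.center (H ⧸ N)), MonoidHom.mem_ker,
        commutatorElement_def, map_mul, map_mul, map_mul, map_inv, map_inv,
        h1 (QuotientGroup.mk' (Subgroup.center (H ⧸ N)) x)
          (QuotientGroup.mk' (Subgroup.center (H ⧸ N)) y)]
      group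
    rw [hp] at h2
    have h3 : Subgroup.center (H ⧸ N) = ⊤ := top_le_iff.1 h2
    have h4 : Subsingleton ((H ⧸ N) ⧸ Subgroup.center (H ⧸ N)) := by
      rw [h3]
      exact QuotientGroup.subsingleton_quotient_top
    exact not_subsingleton _ h4
  have hgood : Good 6 (H ⧸ N) := by
    rcases h H hH f.ker hsim' hnc with ⟨m, hm, ⟨e'⟩⟩ | hKq
    · exact absurd ⟨m, hm, ⟨e.symm.trans e'⟩⟩ halt
    · exact hK (H ⧸ N) ⟨hp, hsim, hodd⟩ _ hKq ⟨e⟩
  obtain ⟨k, hk, hb⟩ := hgood
  obtain ⟨j, hj, hjm⟩ := exists_isMixing hk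
  refine ⟨⟨j, hjm⟩, ?_⟩
  have hle : mixlen (H ⧸ N) ≤ k := (Nat.sInf_le hjm).trans hj
  exact le_trans (by exact_mod_cast hle) hb

/-- Groups whose nonabelian composition factors are alternating or `PSL₂(q)`. -/
theorem fin2 (G : Type) [Group G] [Finite G]
    (h : ∀ H : Subgroup G, H.IsSubnormal → ∀ (N : Subgroup H) [N.Normal], IsSimpleGroup (H ⧸ N) →
      (∃ x y : H ⧸ N, x * y ≠ y * x) →
      (∃ m : ℕ, 5 ≤ m ∧ Nonempty ((H ⧸ N) ≃* alternatingGroup (Fin m))) ∨
      (∃ (F : Type) (_ : Field F) (_ : Finite F), 3 < Nat.card F ∧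
        Nonempty ((H ⧸ N) ≃* (Matrix.SpecialLinearGroup (Fin 2) F ⧸
          Subgroup.center (Matrix.SpecialLinearGroup (Fin 2) F))))) :
    (Mixable G ↔ ∀ N : Subgroup G, N.Normal → Odd N.index → N = ⊤) ∧
      (Mixable G → (mixlen G : ℝ) ≤ 6 * Real.logb 2 (Nat.card G)) := by
  apply fin_gen (fun (S : Type) [Group S] => ∃ (F : Type) (_ : Field F) (_ : Finite F),
    3 < Nat.card F ∧ Nonempty (S ≃* (Matrix.SpecialLinearGroup (Fin 2) F ⧸
          Subgroup.center (Matrix.SpecialLinearGroup (Fin 2) F)))) _ G h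
  rintro Q _ _ hQ S _ ⟨F, hF1, hF2, hc, ⟨e⟩⟩ ⟨e'⟩
  exact good_psl2 hc Q hQ ⟨e'.symm.trans e⟩

end Pool.Agent.Helper84.MXP
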